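import Pool.Agent.Helper51.UL.ArithL
import Pool.Agent.Helper51.UD.OutK

/-!
# Classes modulo `Q` for linear forms
-/

set_option autoImplicit false

open Finset

namespace Pool.Agent.Helper51.UL

open Pool.Agent.Helper51.UD
open Pool.Agent.Y880.RS (log_ev)
open Pool.Agent.Y677.RSZ (rt pig)

variable {κ : ℕ} (α : Fin κ → ℕ) (β : Fin κ → ℤ)

/-- the product of the values of the forms -/
def FL (n : ℤ) : ℤ := ∏ i, (α i * n + β i)

theorem FL_dvd {p : ℕ} (hp : p.Prime) (n : ℤ) :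
    (p : ℤ) ∣ FL α β n ↔ ∃ i, (p : ℤ) ∣ α i * n + β i := by
  unfold FL
  rw [(Nat.prime_iff_prime_int.1 hp).dvd_finsetProd_iff]
  simp

theorem FL_per (p : ℕ) (_hp : p.Prime) (n : ℤ) : (p : ℤ) ∣ FL α β (n + p) - FL α β n := by
  unfold FL
  have key : ∀ s : Finset (Fin κ), (p : ℤ) ∣ ∏ i ∈ s, (α i * (n + p) + β i) -
      ∏ i ∈ s, (α i * n + β i) := by
    intro s
    induction s using Finset.induction_on with
    | empty => simp
    | insert a s ha ih =>
      rw [prod_insert ha, prod_insert ha]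
      obtain ⟨c, hc⟩ := ih
      refine ⟨(α a * n + β a) * c + α a * ∏ i ∈ s, (α i * (n + p) + β i), ?_⟩
      linear_combination (α a * n + β a) * hc
  exact key univ

theorem rt_geL (hnp : ∀ i j, i ≠ j → (α j : ℤ) * β i ≠ α i * β j) (P₀ : ℕ)
    (h0 : ∀ i, 1 ≤ α i ∧ α i ≤ P₀) (h1 : ∀ i j, |(α j : ℤ) * β i - α i * β j| ≤ P₀)
    (p : ℕ) (hp : p.Prime) (hP : P₀ < p) : κ ≤ rt (FL α β) p := by
  classical
  unfold rt
  have h2 : ∀ i, ∃ c : ℕ, c < p ∧ (p : ℤ) ∣ α i * c + β i := by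
    intro i
    obtain ⟨γ, hγ⟩ := exγ (α i) (-β i) {p} (by
      intro q hq
      rw [mem_singleton] at hq
      subst hq
      refine ⟨hp, fun hd => ?_⟩
      have := Nat.le_of_dvd (h0 i).1 hd
      have := (h0 i).2
      omega)
    have h3 := hγ p (mem_singleton_self p)
    refine ⟨γ % p, Nat.mod_lt _ hp.pos, ?_⟩
    have h4 : ((γ % p : ℕ) : ℤ) = γ - p * (γ / p : ℕ) := by
      have := Nat.mod_add_div γ p
      have h5 : ((γ % p + p * (γ / p) : ℕ) : ℤ) = γ := by exact_mod_cast this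
      push_cast at h5 ⊢
      linarith
    rw [h4]
    have h5 : (α i : ℤ) * (γ - p * (γ / p : ℕ)) + β i = (α i * γ - -β i) - p * (α i * (γ / p : ℕ)) := by
      ring
    rw [h5]
    exact dvd_sub h3 (dvd_mul_right _ _)
  choose c hc using h2
  have h3 : (univ : Finset (Fin κ)).card ≤
      ((range p).filter (fun r : ℕ => (p : ℤ) ∣ FL α β r)).card := by
    refine card_le_card_of_injOn c ?_ ?_
    · intro i _
      rw [mem_coe, mem_filter, mem_range, FL_dvd α β hp]
      exact ⟨(hc i).1, i, (hc i).2⟩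
    · intro i _ j _ hij
      by_contra hne
      have h4 := (hc i).2
      have h5 := (hc j).2
      rw [← hij] at h5
      have h6 : (p : ℤ) ∣ (α j : ℤ) * β i - α i * β j := by
        have h7 := dvd_sub (h4.mul_left (α j : ℤ)) (h5.mul_left (α i : ℤ))
        have h8 : (α j : ℤ) * (α i * c i + β i) - α i * (α j * c i + β j) =
            (α j : ℤ) * β i - α i * β j := by ring
        rwa [h8] at h7
      have h7 : (α j : ℤ) * β i - α i * β j = 0 := by
        apply Int.eq_zero_of_abs_lt_dvd h6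
        have h8 := h1 i j
        have : (P₀ : ℤ) < p := by exact_mod_cast hP
        linarith
      exact hnp i j hne (sub_eq_zero.1 h7)
  rwa [card_univ, Fintype.card_fin] at h3

theorem cls_cntL (hnp : ∀ i j, i ≠ j → (α j : ℤ) * β i ≠ α i * β j) (P₀ : ℕ)
    (h0 : ∀ i, 1 ≤ α i ∧ α i ≤ P₀) (h1' : ∀ i j, |(α j : ℤ) * β i - α i * β j| ≤ P₀)
    (Q : ℕ) (hQ : Squarefree Q) :
    (((range Q).filter (fun b : ℕ => ∀ p ∈ Q.primeFactors, ¬ (p : ℤ) ∣ FL α β b)).card : ℝ) ≤
      2 ^ (κ * (P₀ + 1)) * (Q * ((Q.totient : ℝ) / Q) ^ κ) := by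
  classical
  have hQ0 : 0 < Q := Nat.pos_of_ne_zero hQ.ne_zero
  have hQ0' : (0 : ℝ) < Q := by exact_mod_cast hQ0
  have h1 : ((range Q).filter (fun b : ℕ => ∀ p ∈ Q.primeFactors, ¬ (p : ℤ) ∣ FL α β b)).card =
      ∏ p ∈ Q.primeFactors, (p - rt (FL α β) p) := by
    have := pig (FL α β) (FL_per α β) Q hQ
    convert this
  have h2 : ((∏ p ∈ Q.primeFactors, (p - rt (FL α β) p) : ℕ) : ℝ) ≤
      ∏ p ∈ Q.primeFactors, ((if p ≤ P₀ then (2 : ℝ) ^ κ else 1) *
        ((p : ℝ) * (1 - 1 / (p : ℝ)) ^ κ)) := by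
    rw [Nat.cast_prod]
    refine prod_le_prod (fun p _ => Nat.cast_nonneg _) fun p hp => ?_
    have hpp := Nat.prime_of_mem_primeFactors hp
    have hp2 : (2 : ℝ) ≤ p := by exact_mod_cast hpp.two_le
    have h3 : (0 : ℝ) < p := by linarith
    split_ifs with h
    · have h4 : (1 : ℝ) ≤ 2 * (1 - 1 / (p : ℝ)) := by
        have : 1 / (p : ℝ) ≤ 1 / 2 := one_div_le_one_div_of_le (by norm_num) hp2
        linarith
      calc ((p - rt (FL α β) p : ℕ) : ℝ) ≤ p := by exact_mod_cast Nat.sub_le _ _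
        _ ≤ p * (2 * (1 - 1 / (p : ℝ))) ^ κ :=
          le_mul_of_one_le_right h3.le (one_le_pow₀ h4)
        _ = _ := by rw [mul_pow]; ring
    · rw [one_mul]
      have h4 := rt_geL α β hnp P₀ h0 h1' p hpp (not_le.1 h)
      have h5 : (κ : ℝ) ≤ rt (FL α β) p := by exact_mod_cast h4
      have h6 := one_add_mul_le_pow (a := -(1 / (p : ℝ))) (by
        have : 1 / (p : ℝ) ≤ 1 / 2 := one_div_le_one_div_of_le (by norm_num) hp2
        linarith) κ
      have h7 : rt (FL α β) p ≤ p := by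
        unfold rt
        exact (card_filter_le _ _).trans (card_range p).le
      have h8 : ((p - rt (FL α β) p : ℕ) : ℝ) = p * (1 - (rt (FL α β) p : ℝ) / p) := by
        rw [Nat.cast_sub h7]
        field_simp
      rw [h8]
      apply mul_le_mul_of_nonneg_left _ h3.le
      calc 1 - (rt (FL α β) p : ℝ) / p ≤ 1 - (κ : ℝ) / p := by
            have := div_le_div_of_nonneg_right h5 h3.le
            linarith
        _ = 1 + (κ : ℝ) * -(1 / (p : ℝ)) := by ring
        _ ≤ _ := h6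
  rw [h1]
  refine h2.trans ?_
  have h3 : ∏ p ∈ Q.primeFactors, ((p : ℝ) * (1 - 1 / (p : ℝ)) ^ κ) =
      Q * ((Q.totient : ℝ) / Q) ^ κ := by
    rw [prod_mul_distrib, prod_pow]
    have e1 : ∏ p ∈ Q.primeFactors, (p : ℝ) = Q := by
      conv_rhs => rw [← Nat.prod_primeFactors_of_squarefree hQ]
      push_cast
      rfl
    have e2 : ∏ p ∈ Q.primeFactors, (1 - 1 / (p : ℝ)) = (Q.totient : ℝ) / Q := by
      have e3 := Nat.totient_eq_mul_prod_factors Q
      have e4 : (Q.totient : ℝ) = Q * ∏ p ∈ Q.primeFactors, (1 - (p : ℝ)⁻¹) := by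
        have := congrArg (fun x : ℚ => (x : ℝ)) e3
        push_cast at this
        exact this
      rw [e4]
      simp only [one_div]
      field_simp
    rw [e1, e2]
  rw [prod_mul_distrib, h3]
  apply mul_le_mul_of_nonneg_right _ (by positivity)
  rw [prod_ite, prod_const_one, mul_one, prod_const, ← pow_mul]
  apply pow_le_pow_right₀ (by norm_num)
  apply Nat.mul_le_mul_left
  calc (Q.primeFactors.filter fun p => p ≤ P₀).card ≤ (range (P₀ + 1)).card := by
        refine card_le_card fun p hp => ?_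
        rw [mem_filter] at hp
        rw [mem_range]
        omega
    _ = _ := card_range _

/-- the best class for tuples -/
theorem class_exL (h0 : ∀ i, 1 ≤ α i) (hnp : ∀ i j, i ≠ j → (α j : ℤ) * β i ≠ α i * β j) :
    ∃ C : ℝ, 0 < C ∧ ∀ (P : Finset ℕ) (Q : ℕ), Squarefree Q →
      (∀ n ∈ P, ∀ i, ∀ p : ℕ, p.Prime → p ∣ Q → ¬ (p : ℤ) ∣ α i * n + β i) →
      ∃ a, (P.card : ℝ) / (C * (Q * ((Q.totient : ℝ) / Q) ^ κ)) ≤
        (P.filter (fun p => p % Q = a % Q)).card := by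
  classical
  obtain ⟨P₀, hP₁, hP₂⟩ : ∃ P₀ : ℕ, (∀ i, α i ≤ P₀) ∧
      ∀ i j, |(α j : ℤ) * β i - α i * β j| ≤ P₀ := by
    refine ⟨∑ i, α i + ∑ i, ∑ j, ((α j : ℤ) * β i - α i * β j).natAbs, fun i => ?_, fun i j => ?_⟩
    · have := single_le_sum (f := α) (fun _ _ => Nat.zero_le _) (mem_univ i)
      omega
    · have h1 := single_le_sum (f := fun j => ((α j : ℤ) * β i - α i * β j).natAbs)
        (fun _ _ => Nat.zero_le _) (mem_univ j)
      have h2 := single_le_sum (f := fun i => ∑ j, ((α j : ℤ) * β i - α i * β j).natAbs)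
        (fun _ _ => Nat.zero_le _) (mem_univ i)
      rw [Int.abs_eq_natAbs]
      have h3 : ((α j : ℤ) * β i - α i * β j).natAbs ≤
          ∑ i, α i + ∑ i, ∑ j, ((α j : ℤ) * β i - α i * β j).natAbs := by omega
      exact_mod_cast h3
  refine ⟨2 ^ (κ * (P₀ + 1)), by positivity, fun P Q hQ hP => ?_⟩
  have hQ0 : 0 < Q := Nat.pos_of_ne_zero hQ.ne_zero
  obtain ⟨V, hV⟩ : ∃ V, V = (range Q).filter (fun b : ℕ => ∀ p ∈ Q.primeFactors,
    ¬ (p : ℤ) ∣ FL α β b) := ⟨_, rfl⟩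
  have hVc := cls_cntL α β hnp P₀ (fun i => ⟨h0 i, hP₁ i⟩) hP₂ Q hQ
  rw [← hV] at hVc
  rcases P.eq_empty_or_nonempty with rfl | hPne
  · refine ⟨0, ?_⟩
    simp
  have hmaps : ∀ p ∈ P, p % Q ∈ V := by
    intro n hn
    rw [hV, mem_filter, mem_range]
    refine ⟨Nat.mod_lt _ hQ0, fun p hp hd => ?_⟩
    have hpp := Nat.prime_of_mem_primeFactors hp
    have hpQ := Nat.dvd_of_mem_primeFactors hp
    rw [FL_dvd α β hpp] at hd
    obtain ⟨i, hd⟩ := hd
    apply hP n hn i p hpp hpQ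
    have h2 : (α i : ℤ) * n + β i = (α i * ((n % Q : ℕ) : ℤ) + β i) + Q * (α i * (n / Q : ℕ)) := by
      have h3 : ((n % Q + Q * (n / Q) : ℕ) : ℤ) = n := by exact_mod_cast Nat.mod_add_div n Q
      push_cast at h3 ⊢
      linear_combination -(α i : ℤ) * h3
    rw [h2]
    exact dvd_add hd ((Int.natCast_dvd_natCast.2 hpQ).mul_right _)
  have hVne : V.Nonempty := by
    obtain ⟨n, hn⟩ := hPne
    exact ⟨_, hmaps n hn⟩
  have hV0 : (0 : ℝ) < V.card := by exact_mod_cast hVne.card_pos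
  by_contra hcon
  push Not at hcon
  have h1 : (P.card : ℝ) < ∑ a ∈ V, (P.card : ℝ) / V.card := by
    have h2 : P.card = ∑ a ∈ V, (P.filter (fun p => p % Q = a)).card :=
      card_eq_sum_card_fiberwise hmaps
    have h3 : (P.card : ℝ) = ∑ a ∈ V, ((P.filter (fun p => p % Q = a)).card : ℝ) := by
      exact_mod_cast h2
    rw [h3]
    conv_rhs => rw [← h3]
    refine sum_lt_sum_of_nonempty hVne fun a ha => ?_
    have h4 := hcon a
    rw [hV, mem_filter, mem_range] at ha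
    rw [Nat.mod_eq_of_lt ha.1] at h4
    refine h4.trans_le ?_
    exact div_le_div_of_nonneg_left (Nat.cast_nonneg _) hV0 hVc
  rw [sum_const, nsmul_eq_mul, mul_div_cancel₀] at h1
  · exact lt_irrefl _ h1
  · exact hV0.ne'

end Pool.Agent.Helper51.UL
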