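import Pool.Agent.Helper51.UL.ManyL
import Pool.Graph.R_seed8.Y677.RSZ.FinInst

/-!
# Homothetic copies: the final forms
-/

set_option autoImplicit false

open Finset Filter

namespace Pool.Agent.Helper51.UL

open Pool.Agent.Helper51.UD

/-- the number of the dilations `1 ≤ d ≤ D` for which all the numbers `n + d t`, `t ∈ T`, belong to `A` -/
def cop (A : Finset ℕ) (T : Finset ℤ) (D n : ℕ) : ℕ :=
  ((Icc 1 D).filter (fun d : ℕ => ∀ t ∈ T, ∃ m ∈ A, (m : ℤ) = n + d * t)).card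

theorem ptS {κ : ℕ} (α : Fin κ → ℕ) (β : Fin κ → ℤ) (h0 : ∀ i, 1 ≤ α i)
    (hnp : ∀ i j, i ≠ j → (α j : ℤ) * β i ≠ α i * β j) (C₀ k : ℕ)
    (ε θ δ : ℝ) (hε : 0 < ε) (hε1 : ε < 1) (hθ : 0 < θ) (hδ : 0 < δ) :
    ∃ B : ℕ, ∀ X H D u : ℕ, B ≤ X → u ≤ X ^ C₀ → 1 ≤ H → Real.log X ^ B ≤ D →
      (H : ℝ) ^ ε ≤ D → (D : ℝ) * H ≤ (X : ℝ) ^ (1 - ε) →
      ∀ A ⊆ Ioc u (u + X), (∀ n ∈ A, ∀ i, ∀ q : ℕ, q.Prime → (q : ℤ) ∣ α i * n + β i →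
        (X : ℝ) ^ θ < q) →
      ∀ T : Finset ℤ, T.card ≤ k → (∀ t ∈ T, |t| ≤ H) →
        ({n : ℕ | n ∈ A ∧ (cop A T D n : ℝ) < (D : ℝ) ^ (1 - ε)}.ncard : ℝ) ≤
          δ * (X / Real.log X ^ κ) := by
  classical
  obtain ⟨B, X₀, h⟩ := ptL α β h0 hnp C₀ k ε θ δ hε hε1 hθ hδ
  obtain ⟨X₁, hX₁⟩ := Pool.Agent.Y880.RS.log_ev 1
  refine ⟨max B (max X₀ X₁), fun X H D u hX huX hH hBD hHD hDX A hA hAr T hTk hT => ?_⟩
  have hl := hX₁ X (((le_max_right _ _).trans (le_max_right _ _)).trans hX)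
  have h1 := h X H D u (((le_max_left _ _).trans (le_max_right _ _)).trans hX) huX hH
    ((pow_le_pow_right₀ hl (le_max_left _ _)).trans hBD) hHD hDX A hA hAr T hTk hT
  refine le_trans (le_of_eq ?_) h1
  have h2 : {n : ℕ | n ∈ A ∧ (cop A T D n : ℝ) < (D : ℝ) ^ (1 - ε)} =
      (A.filter (fun n : ℕ => (((Icc 1 D).filter (fun d : ℕ => ∀ t ∈ T, ∃ m ∈ A,
          (m : ℤ) = n + d * t)).card : ℝ) < (D : ℝ) ^ (1 - ε)) : Set ℕ) := by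
    ext n
    rw [coe_filter]
    unfold cop
    simp only [Set.mem_ofPred_eq]
  rw [h2, Set.ncard_coe_finset]

/-- the primes `p ∈ (X, 2 X]` for which the numbers `a_i p + b_i` have at most `r` prime factors, all of them
larger than `p ^ (1 / r)` -/
def AlmP {ι : Type} (a : ι → ℕ) (b : ι → ℤ) (r X : ℕ) : Set ℕ :=
  {p | X < p ∧ p ≤ 2 * X ∧ p.Prime ∧ ∀ i, ((a i : ℤ) * p + b i).natAbs.primeFactorsList.length ≤ r ∧
    ∀ q : ℕ, q.Prime → (q : ℤ) ∣ (a i : ℤ) * p + b i → (p : ℝ) ^ (1 / (r : ℝ)) < q}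

theorem lowP {m : ℕ} (a : Fin m → ℕ) (b : Fin m → ℤ) (ha : ∀ i, 0 < a i)
    (hab : ∀ i, IsCoprime (a i : ℤ) (b i)) (hinj : ∀ i j, a i = a j → b i = b j → i = j)
    (hb : ∀ i, b i ≠ 0)
    (hadm : ∀ p : ℕ, p.Prime → ∃ m : ℕ, ¬ p ∣ m ∧ ∀ i, ¬ (p : ℤ) ∣ (a i : ℤ) * m + b i) :
    ∃ r₀ : ℕ, 2 ≤ r₀ ∧ ∀ r : ℕ, r₀ ≤ r → ∃ c : ℝ, 0 < c ∧ ∀ᶠ X : ℕ in atTop,
      c * (X / Real.log X ^ (m + 1)) ≤ ((AlmP a b r X).ncard : ℝ) := by
  classical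
  obtain ⟨r₀, hr₀, h⟩ := Pool.Agent.Y677.RSZ.narrow_lin_prime a b ha hab hinj
    (fun i h => hb i h.2) hadm
    (fun r => {m : ℕ | (∀ p : ℕ, p.Prime → p ∣ m → (m : ℝ) ^ (1 / (r : ℝ)) < (p : ℝ)) ∧
      ∀ i, ∀ p : ℕ, p.Prime → (p : ℤ) ∣ (a i : ℤ) * m + b i →
      (m : ℝ) ^ (1 / (r : ℝ)) < (p : ℝ)})
    (fun r => {p : ℕ | p.Prime ∧ ∀ i, ((a i : ℤ) * p + b i).natAbs.primeFactorsList.length ≤ r ∧
      ∀ q : ℕ, q.Prime → (q : ℤ) ∣ (a i : ℤ) * p + b i → (p : ℝ) ^ (1 / (r : ℝ)) < q})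
    (m + 1) (by rw [Fintype.card_fin]) (fun r m _ hm => hm)
    (fun r m h2r hm h1 h2 => ⟨hm, fun i => ⟨h2 i, fun q hq hqd => h1 i q hq hqd⟩⟩) 1 one_pos le_rfl
  refine ⟨r₀, hr₀, fun r hr => ?_⟩
  obtain ⟨κ, hκ, hk⟩ := (h r hr).1
  refine ⟨κ, hκ, hk.mono fun X hX => ?_⟩
  rw [← mul_div_assoc]
  refine hX.trans (le_of_eq ?_)
  unfold Pool.Agent.TH977.PW.N
  rw [← Set.ncard_coe_finset]
  congr 2
  ext p
  simp only [coe_filter, mem_Ioc, Set.mem_ofPred_eq, AlmP]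
  tauto

/-- a positive proportion of the almost prime tuples containing a prime have many homothetic copies -/
theorem genP {m : ℕ} (a : Fin m → ℕ) (b : Fin m → ℤ) (ha : ∀ i, 0 < a i)
    (hab : ∀ i, IsCoprime (a i : ℤ) (b i)) (hb : ∀ i, b i ≠ 0)
    (hnp : ∀ i j, i ≠ j → (a j : ℤ) * b i ≠ a i * b j)
    (hadm : ∀ p : ℕ, p.Prime → ∃ m : ℕ, ¬ p ∣ m ∧ ∀ i, ¬ (p : ℤ) ∣ (a i : ℤ) * m + b i) :
    ∃ r₀ : ℕ, 2 ≤ r₀ ∧ ∀ r : ℕ, r₀ ≤ r → ∃ c : ℝ, 0 < c ∧ ∀ (k : ℕ) (ε : ℝ), 0 < ε → ε < 1 →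
      ∃ B : ℕ, ∀ X H D : ℕ, B ≤ X → 1 ≤ H → Real.log X ^ B ≤ D →
      (H : ℝ) ^ ε ≤ D → (D : ℝ) * H ≤ (X : ℝ) ^ (1 - ε) →
      ∀ T : Finset ℤ, T.card ≤ k → (∀ t ∈ T, |t| ≤ H) →
        c * (X / Real.log X ^ (m + 1)) ≤ ({p : ℕ | p ∈ AlmP a b r X ∧
          (D : ℝ) ^ (1 - ε) ≤ ({d : ℕ | d ∈ Set.Icc 1 D ∧ ∀ t ∈ T, ∃ q ∈ AlmP a b r X,
            (q : ℤ) = p + d * t}.ncard : ℝ)}.ncard : ℝ) := by
  classical
  obtain ⟨r₀, hr₀, h⟩ := lowP a b ha hab (fun i j h1 h2 => by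
    by_contra hij
    exact hnp i j hij (by rw [h1, h2])) hb hadm
  refine ⟨r₀, hr₀, fun r hr => ?_⟩
  have hr2 : 2 ≤ r := hr₀.trans hr
  have hr0 : (0 : ℝ) < r := by
    have : 0 < r := by omega
    exact_mod_cast this
  obtain ⟨c, hc, hlow⟩ := h r hr
  refine ⟨c / 2, by positivity, fun k ε hε hε1 => ?_⟩
  obtain ⟨B, hB⟩ := ptS (Fin.cons 1 a : Fin (m + 1) → ℕ) (Fin.cons 0 b : Fin (m + 1) → ℤ)
    (by
      intro i
      refine Fin.cases ?_ (fun i => ?_) i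
      · simp
      · simp only [Fin.cons_succ]
        exact ha i)
    (by
      intro i j
      refine Fin.cases (motive := fun i => i ≠ j →
        ((Fin.cons 1 a : Fin (m + 1) → ℕ) j : ℤ) * (Fin.cons 0 b : Fin (m + 1) → ℤ) i ≠
        ((Fin.cons 1 a : Fin (m + 1) → ℕ) i : ℤ) * (Fin.cons 0 b : Fin (m + 1) → ℤ) j) ?_
        (fun i => ?_) i
      · refine Fin.cases ?_ (fun j => ?_) j
        · intro h
          exact absurd rfl h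
        · intro _
          simp only [Fin.cons_zero, Fin.cons_succ, mul_zero, Nat.cast_one, one_mul]
          exact (hb j).symm
      · refine Fin.cases ?_ (fun j => ?_) j
        · intro _
          simp only [Fin.cons_zero, Fin.cons_succ, mul_zero, Nat.cast_one, one_mul]
          exact hb i
        · intro hij
          simp only [Fin.cons_succ]
          exact hnp i j fun h => hij (by rw [h]))
    1 k ε (1 / r) (c / 2) hε hε1 (by positivity) (by positivity)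
  obtain ⟨X₀, hX₀⟩ := eventually_atTop.1 hlow
  obtain ⟨X₁, hX₁⟩ := Pool.Agent.Y880.RS.log_ev 1
  refine ⟨max (max B X₀) (max X₁ 1), fun X H D hX hH hBD hHD hDX T hTk hT => ?_⟩
  have hX1 : 1 ≤ X := ((le_max_right _ _).trans (le_max_right _ _)).trans hX
  have hX1r : (1 : ℝ) ≤ X := by exact_mod_cast hX1
  have hl := hX₁ X (((le_max_left _ _).trans (le_max_right _ _)).trans hX)
  have hlowX := hX₀ X (((le_max_right _ _).trans (le_max_left _ _)).trans hX)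
  have hBX : B ≤ X := ((le_max_left _ _).trans (le_max_left _ _)).trans hX
  obtain ⟨A, hA⟩ : ∃ A : Finset ℕ, ∀ p, p ∈ A ↔ p ∈ AlmP a b r X := by
    refine ⟨(Ioc X (2 * X)).filter (fun p => p ∈ AlmP a b r X), fun p => ?_⟩
    rw [mem_filter, mem_Ioc]
    refine ⟨fun h => h.2, fun h => ⟨⟨h.1, h.2.1⟩, h⟩⟩
  have hAs : (A : Set ℕ) = AlmP a b r X := by
    ext p
    rw [mem_coe, hA]
  have hAc : c * (X / Real.log X ^ (m + 1)) ≤ A.card := by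
    rw [← Set.ncard_coe_finset, hAs]
    exact hlowX
  have h1 := hB X H D X hBX (by rw [pow_one]) hH
    ((pow_le_pow_right₀ hl ((le_max_left _ _).trans (le_max_left _ _))).trans hBD) hHD hDX A
    (by
      intro p hp
      have := (hA p).1 hp
      rw [mem_Ioc, ← two_mul]
      exact ⟨this.1, this.2.1⟩)
    (by
      intro p hp i q hq hqd
      obtain ⟨e1, e2, e3, e4⟩ := (hA p).1 hp
      have e5 : (X : ℝ) ≤ p := by exact_mod_cast e1.le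
      revert hqd
      refine Fin.cases ?_ (fun i => ?_) i
      · intro hqd
        have hqp : q ∣ p := by
          simp only [Fin.cons_zero, Nat.cast_one, one_mul, add_zero] at hqd
          exact Int.natCast_dvd_natCast.1 hqd
        rw [(Nat.prime_dvd_prime_iff_eq hq e3).1 hqp]
        have e6 : (X : ℝ) ^ (1 / (r : ℝ)) ≤ (X : ℝ) ^ (1 : ℝ) := by
          apply Real.rpow_le_rpow_of_exponent_le hX1r
          rw [div_le_one hr0]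
          have : 1 ≤ r := by omega
          exact_mod_cast this
        rw [Real.rpow_one] at e6
        have e7 : (X : ℝ) < p := by exact_mod_cast e1
        linarith
      · intro hqd
        simp only [Fin.cons_succ] at hqd
        refine lt_of_le_of_lt ?_ ((e4 i).2 q hq hqd)
        exact Real.rpow_le_rpow (by linarith) e5 (by positivity))
    T hTk hT
  obtain ⟨G, hG⟩ : ∃ G : Set ℕ, G = {p : ℕ | p ∈ AlmP a b r X ∧
          (D : ℝ) ^ (1 - ε) ≤ ({d : ℕ | d ∈ Set.Icc 1 D ∧ ∀ t ∈ T, ∃ q ∈ AlmP a b r X,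
            (q : ℤ) = p + d * t}.ncard : ℝ)} := ⟨_, rfl⟩
  rw [← hG]
  have hcop : ∀ n : ℕ, {d : ℕ | d ∈ Set.Icc 1 D ∧ ∀ t ∈ T, ∃ q ∈ AlmP a b r X,
            (q : ℤ) = n + d * t}.ncard = cop A T D n := by
    intro n
    unfold cop
    rw [← Set.ncard_coe_finset]
    congr 1
    ext d
    simp only [coe_filter, mem_Icc, Set.mem_ofPred_eq, Set.mem_Icc]
    refine and_congr_right fun _ => forall₂_congr fun t _ => ?_
    constructor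
    · rintro ⟨q, hq, hq2⟩
      exact ⟨q, (hA q).2 hq, hq2⟩
    · rintro ⟨q, hq, hq2⟩
      exact ⟨q, (hA q).1 hq, hq2⟩
  have hsub : (A : Set ℕ) ⊆ G ∪ {n : ℕ | n ∈ A ∧ (cop A T D n : ℝ) < (D : ℝ) ^ (1 - ε)} := by
    intro p hp
    rw [mem_coe] at hp
    by_cases h2 : (cop A T D p : ℝ) < (D : ℝ) ^ (1 - ε)
    · exact Or.inr ⟨hp, h2⟩
    · left
      rw [hG]
      refine ⟨(hA p).1 hp, ?_⟩
      rw [hcop]
      exact not_lt.1 h2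
  have hGfin : G.Finite := by
    refine Set.Finite.subset (A.finite_toSet) ?_
    intro p hp
    rw [hG] at hp
    rw [mem_coe]
    exact (hA p).2 hp.1
  have hEfin : {n : ℕ | n ∈ A ∧ (cop A T D n : ℝ) < (D : ℝ) ^ (1 - ε)}.Finite :=
    Set.Finite.subset (A.finite_toSet) fun p hp => by rw [mem_coe]; exact hp.1
  have h3 := (Set.ncard_le_ncard hsub (hGfin.union hEfin)).trans (Set.ncard_union_le _ _)
  rw [Set.ncard_coe_finset] at h3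
  have h4 : (A.card : ℝ) ≤ G.ncard +
      {n : ℕ | n ∈ A ∧ (cop A T D n : ℝ) < (D : ℝ) ^ (1 - ε)}.ncard := by exact_mod_cast h3
  have h5 : c * (X / Real.log X ^ (m + 1)) = c / 2 * (X / Real.log X ^ (m + 1)) +
      c / 2 * (X / Real.log X ^ (m + 1)) := by ring
  linarith

/-- the number of the dilations `1 ≤ d ≤ D` for which all the numbers `n + d t`, `t ∈ T`, belong to `A` -/
noncomputable def cps (A : Set ℕ) (T : Finset ℤ) (D n : ℕ) : ℕ :=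
  {d : ℕ | 1 ≤ d ∧ d ≤ D ∧ ∀ t ∈ T, ∃ m ∈ A, (m : ℤ) = n + d * t}.ncard

/-- the pointwise form for sets -/
theorem ptSet {κ : ℕ} (α : Fin κ → ℕ) (β : Fin κ → ℤ) (h0 : ∀ i, 1 ≤ α i)
    (hnp : ∀ i j, i ≠ j → (α j : ℤ) * β i ≠ α i * β j) (C₀ k : ℕ)
    (ε θ δ : ℝ) (hε : 0 < ε) (hε1 : ε < 1) (hθ : 0 < θ) (hδ : 0 < δ) :
    ∃ B : ℕ, ∀ X H D u : ℕ, B ≤ X → u ≤ X ^ C₀ → 1 ≤ H → Real.log X ^ B ≤ D →
      (H : ℝ) ^ ε ≤ D → (D : ℝ) * H ≤ (X : ℝ) ^ (1 - ε) →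
      ∀ A : Set ℕ, (∀ n ∈ A, u < n ∧ n ≤ u + X ∧ ∀ i, ∀ q : ℕ, q.Prime →
        (q : ℤ) ∣ α i * n + β i → (X : ℝ) ^ θ < q) →
      ∀ T : Finset ℤ, T.card ≤ k → (∀ t ∈ T, |t| ≤ H) →
        ({n : ℕ | n ∈ A ∧ (cps A T D n : ℝ) < (D : ℝ) ^ (1 - ε)}.ncard : ℝ) ≤
          δ * (X / Real.log X ^ κ) := by
  classical
  obtain ⟨B, hB⟩ := ptS α β h0 hnp C₀ k ε θ δ hε hε1 hθ hδ
  refine ⟨B, fun X H D u hX huX hH hBD hHD hDX A hA T hTk hT => ?_⟩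
  obtain ⟨A', hA'⟩ : ∃ A' : Finset ℕ, ∀ p, p ∈ A' ↔ p ∈ A := by
    refine ⟨(Ioc u (u + X)).filter (fun p => p ∈ A), fun p => ?_⟩
    rw [mem_filter, mem_Ioc]
    exact ⟨fun h => h.2, fun h => ⟨⟨(hA p h).1, (hA p h).2.1⟩, h⟩⟩
  have h1 := hB X H D u hX huX hH hBD hHD hDX A' (by
    intro p hp
    rw [mem_Ioc]
    have := hA p ((hA' p).1 hp)
    exact ⟨this.1, this.2.1⟩) (fun n hn i q hq hqd => (hA n ((hA' n).1 hn)).2.2 i q hq hqd) T hTk hT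
  have hcop : ∀ n : ℕ, cps A T D n = cop A' T D n := by
    intro n
    unfold cps cop
    rw [← Set.ncard_coe_finset]
    congr 1
    ext d
    simp only [coe_filter, mem_Icc, Set.mem_ofPred_eq]
    rw [and_assoc]
    refine and_congr_right fun _ => and_congr_right fun _ => forall₂_congr fun t _ => ?_
    constructor
    · rintro ⟨q, hq, hq2⟩
      exact ⟨q, (hA' q).2 hq, hq2⟩
    · rintro ⟨q, hq, hq2⟩
      exact ⟨q, (hA' q).1 hq, hq2⟩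
  simp only [hA', ← hcop] at h1
  exact h1

/-- a positive proportion of the almost prime tuples containing a prime have many homothetic copies -/
theorem genPs {m : ℕ} (a : Fin m → ℕ) (b : Fin m → ℤ) (ha : ∀ i, 0 < a i)
    (hab : ∀ i, IsCoprime (a i : ℤ) (b i)) (hb : ∀ i, b i ≠ 0)
    (hnp : ∀ i j, i ≠ j → (a j : ℤ) * b i ≠ a i * b j)
    (hadm : ∀ p : ℕ, p.Prime → ∃ m : ℕ, ¬ p ∣ m ∧ ∀ i, ¬ (p : ℤ) ∣ (a i : ℤ) * m + b i) :
    ∃ r₀ : ℕ, ∀ r : ℕ, r₀ ≤ r → ∃ c : ℝ, 0 < c ∧ ∀ (k : ℕ) (ε : ℝ), 0 < ε → ε < 1 →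
      ∃ B : ℕ, ∀ X H D : ℕ, B ≤ X → 1 ≤ H → Real.log X ^ B ≤ D →
      (H : ℝ) ^ ε ≤ D → (D : ℝ) * H ≤ (X : ℝ) ^ (1 - ε) →
      ∀ T : Finset ℤ, T.card ≤ k → (∀ t ∈ T, |t| ≤ H) →
        c * (X / Real.log X ^ (m + 1)) ≤ ({p : ℕ | p ∈ AlmP a b r X ∧
          (D : ℝ) ^ (1 - ε) ≤ (cps (AlmP a b r X) T D p : ℝ)}.ncard : ℝ) := by
  obtain ⟨r₀, hr₀, h⟩ := genP a b ha hab hb hnp hadm
  refine ⟨r₀, fun r hr => ?_⟩
  obtain ⟨c, hc, h⟩ := h r hr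
  refine ⟨c, hc, fun k ε hε hε1 => ?_⟩
  obtain ⟨B, hB⟩ := h k ε hε hε1
  refine ⟨B, fun X H D hX hH hBD hHD hDX T hTk hT => ?_⟩
  have h1 := hB X H D hX hH hBD hHD hDX T hTk hT
  have h2 : ∀ p : ℕ, {d : ℕ | d ∈ Set.Icc 1 D ∧ ∀ t ∈ T, ∃ q ∈ AlmP a b r X,
      (q : ℤ) = p + d * t}.ncard = cps (AlmP a b r X) T D p := by
    intro p
    unfold cps
    congr 1
    ext d
    simp only [Set.mem_ofPred_eq, Set.mem_Icc, and_assoc]
  simp only [h2] at h1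
  exact h1

end Pool.Agent.Helper51.UL
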