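import Pool.Agent.Helper51.UL.OutL

/-!
# Many dilates, for linear forms, in intervals, and the pointwise form
-/

set_option autoImplicit false

open Finset

namespace Pool.Agent.Helper51.UL

open Pool.Agent.Helper51.UD
open Pool.Agent.Y880.RS (log_ev)

/-- general `θ` -/
theorem dilL {κ : ℕ} (α : Fin κ → ℕ) (β : Fin κ → ℤ) (h0 : ∀ i, 1 ≤ α i)
    (hnp : ∀ i j, i ≠ j → (α j : ℤ) * β i ≠ α i * β j) (C₀ k : ℕ) (hk : 1 ≤ k)
    (ε θ δ : ℝ) (hε : 0 < ε) (hε1 : ε < 1) (hθ : 0 < θ) (hδ : 0 < δ) :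
    ∃ B X₀ : ℕ, ∀ X H u : ℕ, X₀ ≤ X → u ≤ X ^ C₀ → Real.log X ^ B ≤ H → (H : ℝ) ≤ (X : ℝ) ^ (1 - ε) →
      ∀ P ⊆ Ioc u (u + X), (∀ n ∈ P, ∀ i, ∀ q : ℕ, q.Prime → (q : ℤ) ∣ α i * n + β i →
        (X : ℝ) ^ θ < q) →
      δ * (X / Real.log X ^ κ) ≤ P.card →
      ∀ a : Fin k → ℕ, Function.Injective a → (∀ i, a i ≤ H) →
        ∃ d : ℕ, 1 ≤ d ∧ (d : ℝ) ≤ (H : ℝ) ^ ε ∧ (X : ℝ) / (H : ℝ) ^ ε ≤
          (((Ioc u (u + X)).filter (fun n => ∀ i, n + d * a i ∈ P)).card : ℝ) := by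
  obtain ⟨B, X₀, h⟩ := dilL0 α β h0 hnp C₀ k hk (min ε θ) θ δ (lt_min hε hθ)
    ((min_le_left _ _).trans_lt hε1) (min_le_right _ _) hδ
  obtain ⟨X₁, hX₁⟩ := log_ev 1
  refine ⟨B, max X₀ X₁, fun X H u hX huX hBH hHX P hP hPp hPc a ha haH => ?_⟩
  have hl := hX₁ X ((le_max_right _ _).trans hX)
  have hX1 : (1 : ℝ) ≤ X := by
    by_contra hcon
    push Not at hcon
    have hX0 : X = 0 := by
      have : X < 1 := by exact_mod_cast hcon
      omega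
    rw [hX0] at hl
    simp at hl
    linarith
  have hH1 : (1 : ℝ) ≤ H := (one_le_pow₀ hl).trans hBH
  obtain ⟨d, hd1, hd2, hd3⟩ := h X H u ((le_max_left _ _).trans hX) huX hBH (hHX.trans (by
    apply Real.rpow_le_rpow_of_exponent_le hX1
    have := min_le_left ε θ
    linarith)) P hP hPp hPc a ha haH
  have h1 : (H : ℝ) ^ (min ε θ) ≤ (H : ℝ) ^ ε :=
    Real.rpow_le_rpow_of_exponent_le hH1 (min_le_left _ _)
  refine ⟨d, hd1, hd2.trans h1, le_trans ?_ hd3⟩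
  apply div_le_div_of_nonneg_left (by linarith) _ h1
  have : (0 : ℝ) < H := by linarith
  positivity

/-- the form with sets -/
theorem dilTL {κ : ℕ} (α : Fin κ → ℕ) (β : Fin κ → ℤ) (h0 : ∀ i, 1 ≤ α i)
    (hnp : ∀ i j, i ≠ j → (α j : ℤ) * β i ≠ α i * β j) (C₀ k : ℕ)
    (ε θ δ : ℝ) (hε : 0 < ε) (hε1 : ε < 1) (hθ : 0 < θ) (hδ : 0 < δ) :
    ∃ B X₀ : ℕ, ∀ X H u : ℕ, X₀ ≤ X → u ≤ X ^ C₀ → Real.log X ^ B ≤ H → (H : ℝ) ≤ (X : ℝ) ^ (1 - ε) →
      ∀ P ⊆ Ioc u (u + X), (∀ n ∈ P, ∀ i, ∀ q : ℕ, q.Prime → (q : ℤ) ∣ α i * n + β i →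
        (X : ℝ) ^ θ < q) →
      δ * (X / Real.log X ^ κ) ≤ P.card →
      ∀ T : Finset ℕ, T.card ≤ k → (∀ t ∈ T, t ≤ H) →
        ∃ d : ℕ, 1 ≤ d ∧ (d : ℝ) ≤ (H : ℝ) ^ ε ∧ (X : ℝ) / (H : ℝ) ^ ε ≤
          (((Ioc u (u + X)).filter (fun n => ∀ t ∈ T, n + d * t ∈ P)).card : ℝ) := by
  classical
  obtain ⟨B, X₀, h⟩ := dilL α β h0 hnp C₀ (k + 1) (by omega) ε θ δ hε hε1 hθ hδ
  obtain ⟨X₁, hX₁⟩ := log_ev (k + 1)
  refine ⟨B + 1, max X₀ X₁, fun X H u hX huX hBH hHX P hP hPp hPc T hTk hT => ?_⟩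
  have hX0 := h X H u ((le_max_left _ _).trans hX) huX
  have hl := hX₁ X ((le_max_right _ _).trans hX)
  have hl1 : 1 ≤ Real.log X := by
    have : (0 : ℝ) ≤ k := Nat.cast_nonneg k
    linarith
  have hBH' : Real.log X ^ B ≤ H := (pow_le_pow_right₀ hl1 (Nat.le_succ B)).trans hBH
  have hkH : k + 1 ≤ H := by
    have h1 : ((k + 1 : ℕ) : ℝ) ≤ H := by
      push_cast
      exact hl.trans ((le_self_pow₀ hl1 (Nat.succ_ne_zero B)).trans hBH)
    exact_mod_cast h1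
  obtain ⟨T', hT1, hT2, hT3⟩ := exists_subsuperset_card_eq
    (show T ⊆ range (H + 1) from fun t ht => mem_range.2 (Nat.lt_succ_of_le (hT t ht)))
    (show T.card ≤ k + 1 by omega) (show k + 1 ≤ (range (H + 1)).card by rw [card_range]; omega)
  let e := T'.equivFinOfCardEq hT3
  obtain ⟨d, hd1, hd2, hd3⟩ := hX0 hBH' hHX P hP hPp hPc (fun i => (e.symm i : ℕ))
    (fun i j hij => e.symm.injective (Subtype.ext hij))
    (fun i => Nat.lt_succ_iff.1 (mem_range.1 (hT2 (e.symm i).2)))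
  refine ⟨d, hd1, hd2, hd3.trans ?_⟩
  have h2 : (Ioc u (u + X)).filter (fun n => ∀ i, n + d * ((e.symm i : T') : ℕ) ∈ P) ⊆
      (Ioc u (u + X)).filter (fun n => ∀ t ∈ T, n + d * t ∈ P) := by
    intro n hn
    rw [mem_filter] at hn ⊢
    refine ⟨hn.1, fun t ht => ?_⟩
    have h3 := hn.2 (e ⟨t, hT1 ht⟩)
    simpa using h3
  exact_mod_cast card_le_card h2

/-- many dilates -/
theorem manyL {κ : ℕ} (α : Fin κ → ℕ) (β : Fin κ → ℤ) (h0 : ∀ i, 1 ≤ α i)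
    (hnp : ∀ i j, i ≠ j → (α j : ℤ) * β i ≠ α i * β j) (C₀ k : ℕ)
    (ε θ δ : ℝ) (hε : 0 < ε) (hε1 : ε < 1) (hθ : 0 < θ) (hδ : 0 < δ) :
    ∃ B X₀ : ℕ, ∀ X H D u : ℕ, X₀ ≤ X → u ≤ X ^ C₀ → 1 ≤ H → Real.log X ^ B ≤ D → (H : ℝ) ^ ε ≤ D →
      (D : ℝ) * H ≤ (X : ℝ) ^ (1 - ε) →
      ∀ P ⊆ Ioc u (u + X), (∀ n ∈ P, ∀ i, ∀ q : ℕ, q.Prime → (q : ℤ) ∣ α i * n + β i →
        (X : ℝ) ^ θ < q) →
      δ * (X / Real.log X ^ κ) ≤ P.card →
      ∀ T : Finset ℕ, T.card ≤ k → (∀ t ∈ T, t ≤ H) →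
        (D : ℝ) ^ (1 - ε) ≤ (((Icc 1 D).filter (fun d => (X : ℝ) / (D : ℝ) ^ ε ≤
          (((Ioc u (u + X)).filter (fun n => ∀ t ∈ T, n + d * t ∈ P)).card : ℝ))).card : ℝ) := by
  classical
  obtain ⟨ε', hε'⟩ : ∃ ε', ε' = ε ^ 2 / 8 := ⟨_, rfl⟩
  have hε'0 : 0 < ε' := by rw [hε']; positivity
  have hε'ε : ε' ≤ ε := by rw [hε']; nlinarith
  obtain ⟨B, X₀, h⟩ := dilTL α β h0 hnp C₀ k ε' θ δ hε'0 (by linarith) hθ hδ
  obtain ⟨X₁, hX₁⟩ := log_ev 2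
  obtain ⟨C, hC⟩ : ∃ C, C = ⌈2 / ε⌉₊ := ⟨_, rfl⟩
  have hC1 : 2 / ε ≤ (C : ℝ) := by rw [hC]; exact Nat.le_ceil _
  refine ⟨B + C, max (max X₀ X₁) 1, fun X H D u hX huX hH hBD hHD hDX P hP hPp hPc T hTk hT => ?_⟩
  have hX0 := h X (D * H) u (((le_max_left _ _).trans (le_max_left _ _)).trans hX) huX
  have hl := hX₁ X (((le_max_right _ _).trans (le_max_left _ _)).trans hX)
  have hX1 : 1 ≤ X := (le_max_right _ _).trans hX
  have hl1 : 1 ≤ Real.log X := by linarith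
  have hHr : (1 : ℝ) ≤ H := by exact_mod_cast hH
  obtain ⟨y, hy⟩ : ∃ y : ℝ, y = D := ⟨_, rfl⟩
  rw [← hy] at hBD hHD hDX ⊢
  have hD1 : 1 ≤ y := (one_le_pow₀ hl1).trans hBD
  have hD0 : 0 < y := by linarith
  have hDpos : 1 ≤ D := by
    rw [hy] at hD1
    exact_mod_cast hD1
  have hBD1 : Real.log X ^ B ≤ ((D * H : ℕ) : ℝ) := by
    calc Real.log X ^ B ≤ Real.log X ^ (B + C) := pow_le_pow_right₀ hl1 (Nat.le_add_right _ _)
      _ ≤ y := hBD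
      _ ≤ y * H := le_mul_of_one_le_right hD0.le hHr
      _ = _ := by rw [hy]; push_cast; ring
  have h2y : 2 ≤ y ^ (ε / 2) := by
    have h1 : Real.log X ^ (2 / ε) ≤ y := by
      refine le_trans ?_ hBD
      rw [← Real.rpow_natCast]
      apply Real.rpow_le_rpow_of_exponent_le hl1
      push_cast
      have : (0 : ℝ) ≤ B := Nat.cast_nonneg B
      linarith
    calc (2 : ℝ) ≤ Real.log X := hl
      _ = (Real.log X ^ (2 / ε)) ^ (ε / 2) := by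
          rw [← Real.rpow_mul (by linarith)]
          have : 2 / ε * (ε / 2) = 1 := by field_simp
          rw [this, Real.rpow_one]
      _ ≤ y ^ (ε / 2) := Real.rpow_le_rpow (by positivity) h1 (by positivity)
  -- the size of the dilations
  have hDH : ((D * H : ℕ) : ℝ) ^ ε' ≤ y ^ (ε / 4) := by
    have h1 : (H : ℝ) ≤ y ^ (1 / ε) := by
      calc (H : ℝ) = ((H : ℝ) ^ ε) ^ (1 / ε) := by
            rw [← Real.rpow_mul (by linarith)]
            have : ε * (1 / ε) = 1 := by field_simp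
            rw [this, Real.rpow_one]
        _ ≤ y ^ (1 / ε) := Real.rpow_le_rpow (by positivity) hHD (by positivity)
    have h2 : ((D * H : ℕ) : ℝ) ≤ y ^ (2 / ε) := by
      push_cast
      rw [← hy]
      calc y * H ≤ y ^ (1 : ℝ) * y ^ (1 / ε) := by
            rw [Real.rpow_one]
            exact mul_le_mul_of_nonneg_left h1 hD0.le
        _ = y ^ (1 + 1 / ε) := (Real.rpow_add hD0 _ _).symm
        _ ≤ y ^ (2 / ε) := by
            apply Real.rpow_le_rpow_of_exponent_le hD1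
            have h3 : 1 ≤ 1 / ε := by
              rw [le_div_iff₀ hε]
              linarith
            have h4 : 2 / ε = 1 / ε + 1 / ε := by ring
            linarith
    calc ((D * H : ℕ) : ℝ) ^ ε' ≤ (y ^ (2 / ε)) ^ ε' :=
          Real.rpow_le_rpow (by positivity) h2 hε'0.le
      _ = y ^ (ε / 4) := by
          rw [← Real.rpow_mul hD0.le, hε']
          congr 1
          field_simp
          ring
  obtain ⟨M, hM⟩ : ∃ M, M = ⌊y ^ (1 - ε / 4)⌋₊ := ⟨_, rfl⟩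
  have hMy : (M : ℝ) ≤ y ^ (1 - ε / 4) := by rw [hM]; exact Nat.floor_le (by positivity)
  have hMD : M ≤ D := by
    have h1 : (M : ℝ) ≤ y := by
      refine hMy.trans ?_
      calc y ^ (1 - ε / 4) ≤ y ^ (1 : ℝ) := Real.rpow_le_rpow_of_exponent_le hD1 (by linarith)
        _ = y := Real.rpow_one y
    rw [hy] at h1
    exact_mod_cast h1
  have hdil : ∀ m ∈ Icc 1 M, ∃ d : ℕ, 1 ≤ d ∧ (d : ℝ) ≤ y ^ (ε / 4) ∧ (X : ℝ) / y ^ ε ≤
      (((Ioc u (u + X)).filter (fun n => ∀ t ∈ T, n + (m * d) * t ∈ P)).card : ℝ) := by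
    intro m hm
    rw [mem_Icc] at hm
    obtain ⟨d, hd1, hd2, hd3⟩ := hX0 hBD1 (by
        push_cast
        rw [← hy]
        refine hDX.trans ?_
        apply Real.rpow_le_rpow_of_exponent_le (by exact_mod_cast hX1)
        linarith) P hP hPp hPc (T.image (fun t => m * t)) (card_image_le.trans hTk) (by
        intro t ht
        rw [mem_image] at ht
        obtain ⟨t', ht', rfl⟩ := ht
        exact Nat.mul_le_mul (hm.2.trans hMD) (hT t' ht'))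
    refine ⟨d, hd1, hd2.trans hDH, le_trans ?_ (hd3.trans ?_)⟩
    · apply div_le_div_of_nonneg_left (by positivity)
      · have : 0 < ((D * H : ℕ) : ℝ) := by
          have : 0 < D * H := Nat.mul_pos hDpos hH
          exact_mod_cast this
        positivity
      · refine hDH.trans ?_
        exact Real.rpow_le_rpow_of_exponent_le hD1 (by linarith)
    · have h2 : (Ioc u (u + X)).filter (fun n => ∀ t ∈ T.image (fun t => m * t), n + d * t ∈ P) ⊆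
          (Ioc u (u + X)).filter (fun n => ∀ t ∈ T, n + (m * d) * t ∈ P) := by
        intro n hn
        rw [mem_filter] at hn ⊢
        refine ⟨hn.1, fun t ht => ?_⟩
        have h3 := hn.2 (m * t) (mem_image_of_mem _ ht)
        have h4 : m * d * t = d * (m * t) := by ring
        rw [h4]
        exact h3
      exact_mod_cast card_le_card h2
  choose! dd hdd using hdil
  obtain ⟨G, hG⟩ : ∃ G, G = (Icc 1 D).filter (fun d => (X : ℝ) / y ^ ε ≤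
    (((Ioc u (u + X)).filter (fun n => ∀ t ∈ T, n + d * t ∈ P)).card : ℝ)) := ⟨_, rfl⟩
  rw [← hG]
  have hmaps : ∀ m ∈ Icc 1 M, m * dd m ∈ G := by
    intro m hm
    obtain ⟨h1, h2, h3⟩ := hdd m hm
    rw [hG, mem_filter, mem_Icc]
    refine ⟨⟨Nat.mul_pos (mem_Icc.1 hm).1 h1, ?_⟩, h3⟩
    have h4 : ((m * dd m : ℕ) : ℝ) ≤ y := by
      push_cast
      have h5 : (m : ℝ) ≤ M := by exact_mod_cast (mem_Icc.1 hm).2
      calc (m : ℝ) * dd m ≤ y ^ (1 - ε / 4) * y ^ (ε / 4) :=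
            mul_le_mul (h5.trans hMy) h2 (by positivity) (by positivity)
        _ = y ^ (1 : ℝ) := by
            rw [← Real.rpow_add hD0]
            congr 1
            ring
        _ = y := Real.rpow_one y
    rw [hy] at h4
    exact_mod_cast h4
  have hcard := card_le_mul_card_image_of_maps_to hmaps ⌊y ^ (ε / 4)⌋₊ (by
    intro v _
    have h1 : ((Icc 1 M).filter (fun m => m * dd m = v)).card ≤ (Icc 1 ⌊y ^ (ε / 4)⌋₊).card := by
      refine card_le_card_of_injOn dd ?_ ?_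
      · intro m hm
        rw [mem_coe, mem_filter] at hm
        obtain ⟨h1, h2, h3⟩ := hdd m hm.1
        rw [mem_coe, mem_Icc]
        exact ⟨h1, Nat.le_floor h2⟩
      · intro m hm m' hm' hmm
        rw [mem_coe, mem_filter] at hm hm'
        obtain ⟨h1, _, _⟩ := hdd m hm.1
        have h4 : m * dd m = m' * dd m := by rw [hm.2]; rw [hmm]; exact hm'.2.symm
        exact Nat.eq_of_mul_eq_mul_right h1 h4
    rw [Nat.card_Icc, Nat.add_sub_cancel] at h1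
    exact h1)
  rw [Nat.card_Icc, Nat.add_sub_cancel] at hcard
  have h1 : (M : ℝ) ≤ y ^ (ε / 4) * G.card := by
    have h2 : (M : ℝ) ≤ (⌊y ^ (ε / 4)⌋₊ : ℝ) * G.card := by exact_mod_cast hcard
    have h3 := Nat.floor_le (show 0 ≤ y ^ (ε / 4) by positivity)
    have h4 : (⌊y ^ (ε / 4)⌋₊ : ℝ) * G.card ≤ y ^ (ε / 4) * G.card :=
      mul_le_mul_of_nonneg_right h3 (Nat.cast_nonneg _)
    linarith
  have h2 : y ^ (1 - ε / 4) < M + 1 := by rw [hM]; exact Nat.lt_floor_add_one _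
  have h3 : 1 ≤ y ^ (1 - ε / 4) := Real.one_le_rpow hD1 (by linarith)
  have h4 : 1 ≤ (M : ℝ) := by
    have : 1 ≤ M := by rw [hM]; exact Nat.le_floor (by simpa using h3)
    exact_mod_cast this
  have h5 : y ^ (1 - ε / 4) ≤ 2 * (y ^ (ε / 4) * G.card) := by linarith
  have h6 : y ^ (1 - ε / 4) = y ^ (ε / 4) * (y ^ (ε / 2) * y ^ (1 - ε)) := by
    rw [← Real.rpow_add hD0, ← Real.rpow_add hD0]
    congr 1
    ring
  rw [h6] at h5
  have h7 : 0 < y ^ (ε / 4) := by positivity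
  have h8 : y ^ (ε / 2) * y ^ (1 - ε) ≤ 2 * G.card := by
    have : y ^ (ε / 4) * (y ^ (ε / 2) * y ^ (1 - ε)) ≤ y ^ (ε / 4) * (2 * G.card) := by linarith
    exact le_of_mul_le_mul_left this h7
  have h9 : 2 * y ^ (1 - ε) ≤ y ^ (ε / 2) * y ^ (1 - ε) :=
    mul_le_mul_of_nonneg_right h2y (by positivity)
  linarith

/-- the pointwise form -/
theorem ptL {κ : ℕ} (α : Fin κ → ℕ) (β : Fin κ → ℤ) (h0 : ∀ i, 1 ≤ α i)
    (hnp : ∀ i j, i ≠ j → (α j : ℤ) * β i ≠ α i * β j) (C₀ k : ℕ)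
    (ε θ δ : ℝ) (hε : 0 < ε) (hε1 : ε < 1) (hθ : 0 < θ) (hδ : 0 < δ) :
    ∃ B X₀ : ℕ, ∀ X H D u : ℕ, X₀ ≤ X → u ≤ X ^ C₀ → 1 ≤ H → Real.log X ^ B ≤ D →
      (H : ℝ) ^ ε ≤ D → (D : ℝ) * H ≤ (X : ℝ) ^ (1 - ε) →
      ∀ A ⊆ Ioc u (u + X), (∀ n ∈ A, ∀ i, ∀ q : ℕ, q.Prime → (q : ℤ) ∣ α i * n + β i →
        (X : ℝ) ^ θ < q) →
      ∀ T : Finset ℤ, T.card ≤ k → (∀ t ∈ T, |t| ≤ H) →
        ((A.filter (fun n : ℕ => (((Icc 1 D).filter (fun d : ℕ => ∀ t ∈ T, ∃ m ∈ A,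
          (m : ℤ) = n + d * t)).card : ℝ) < (D : ℝ) ^ (1 - ε))).card : ℝ) ≤
          δ * (X / Real.log X ^ κ) := by
  classical
  obtain ⟨B, X₀, h⟩ := manyL α β h0 hnp C₀ (k + 1) (ε / 3) θ δ (by positivity) (by linarith) hθ hδ
  obtain ⟨X₁, hX₁⟩ := log_ev 8
  obtain ⟨X₂, hX₂⟩ := ev_rpow 2 (2 * ε / 3) (by positivity)
  refine ⟨B + 1, max (max X₀ X₁) (max X₂ 1), fun X H D u hX huX hH hBD hHD hDX A hA hAr T hTk hT => ?_⟩
  have hX0 := h X (2 * H) D u (((le_max_left _ _).trans (le_max_left _ _)).trans hX) huX (by omega)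
  have hl := hX₁ X (((le_max_right _ _).trans (le_max_left _ _)).trans hX)
  have hX2 := hX₂ X (((le_max_left _ _).trans (le_max_right _ _)).trans hX)
  have hX1 : (1 : ℝ) ≤ X := by
    have : 1 ≤ X := ((le_max_right _ _).trans (le_max_right _ _)).trans hX
    exact_mod_cast this
  have hl1 : 1 ≤ Real.log X := by linarith
  have hD8 : (8 : ℝ) ≤ D := by
    refine hl.trans (le_trans ?_ hBD)
    exact le_self_pow₀ hl1 (Nat.succ_ne_zero _)
  have hD0 : (0 : ℝ) < D := by linarith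
  have hD1 : (1 : ℝ) ≤ D := by linarith
  have hHr : (1 : ℝ) ≤ H := by exact_mod_cast hH
  by_contra hcon
  push Not at hcon
  obtain ⟨E, hE⟩ : ∃ E, E = A.filter (fun n : ℕ => (((Icc 1 D).filter (fun d : ℕ => ∀ t ∈ T,
    ∃ m ∈ A, (m : ℤ) = n + d * t)).card : ℝ) < (D : ℝ) ^ (1 - ε)) := ⟨_, rfl⟩
  rw [← hE] at hcon
  have hEA : E ⊆ A := by rw [hE]; exact filter_subset _ _
  -- the shifted set
  obtain ⟨T', hT'⟩ : ∃ T' : Finset ℕ, T' = insert H (T.image (fun t : ℤ => (t + H).toNat)) := ⟨_, rfl⟩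
  have hT't : ∀ t ∈ T, (t + H).toNat ∈ T' := fun t ht => by
    rw [hT']
    exact mem_insert_of_mem (mem_image_of_mem _ ht)
  have hHT' : H ∈ T' := by rw [hT']; exact mem_insert_self _ _
  have hBD' : Real.log X ^ B ≤ D := (pow_le_pow_right₀ hl1 (Nat.le_succ B)).trans hBD
  have h2H : ((2 * H : ℕ) : ℝ) ^ (ε / 3) ≤ D := by
    push_cast
    rw [Real.mul_rpow (by norm_num) (by linarith)]
    have e1 : (2 : ℝ) ^ (ε / 3) ≤ 2 := by
      calc (2 : ℝ) ^ (ε / 3) ≤ 2 ^ (1 : ℝ) :=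
            Real.rpow_le_rpow_of_exponent_le (by norm_num) (by linarith)
        _ = 2 := Real.rpow_one 2
    have e2 : (H : ℝ) ^ (ε / 3) ≤ (D : ℝ) ^ ((1 : ℝ) / 3) := by
      calc (H : ℝ) ^ (ε / 3) = ((H : ℝ) ^ ε) ^ ((1 : ℝ) / 3) := by
            rw [← Real.rpow_mul (by linarith)]
            congr 1
            ring
        _ ≤ (D : ℝ) ^ ((1 : ℝ) / 3) := Real.rpow_le_rpow (by positivity) hHD (by norm_num)
    have e3 : 2 ≤ (D : ℝ) ^ ((1 : ℝ) / 3) := by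
      calc (2 : ℝ) = (8 : ℝ) ^ ((1 : ℝ) / 3) := by
            rw [show (8 : ℝ) = 2 ^ (3 : ℝ) by norm_num, ← Real.rpow_mul (by norm_num)]
            norm_num
        _ ≤ _ := Real.rpow_le_rpow (by norm_num) hD8 (by norm_num)
    calc (2 : ℝ) ^ (ε / 3) * (H : ℝ) ^ (ε / 3) ≤ (D : ℝ) ^ ((1 : ℝ) / 3) * (D : ℝ) ^ ((1 : ℝ) / 3) :=
          mul_le_mul (e1.trans e3) e2 (by positivity) (by positivity)
      _ = (D : ℝ) ^ ((2 : ℝ) / 3) := by
          rw [← Real.rpow_add hD0]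
          norm_num
      _ ≤ (D : ℝ) ^ (1 : ℝ) := Real.rpow_le_rpow_of_exponent_le hD1 (by norm_num)
      _ = D := Real.rpow_one _
  have hD2H : (D : ℝ) * ((2 * H : ℕ) : ℝ) ≤ (X : ℝ) ^ (1 - ε / 3) := by
    push_cast
    calc (D : ℝ) * (2 * H) = 2 * (D * H) := by ring
      _ ≤ (X : ℝ) ^ (2 * ε / 3) * (X : ℝ) ^ (1 - ε) :=
          mul_le_mul hX2 hDX (by positivity) (by positivity)
      _ = (X : ℝ) ^ (1 - ε / 3) := by
          rw [← Real.rpow_add (by linarith)]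
          congr 1
          ring
  have hmain := hX0 hBD' h2H hD2H E (hEA.trans hA) (fun n hn => hAr n (hEA hn)) hcon.le T'
    (by
      rw [hT']
      exact (card_insert_le _ _).trans (Nat.succ_le_succ (card_image_le.trans hTk)))
    (by
      intro t ht
      rw [hT', mem_insert, mem_image] at ht
      rcases ht with rfl | ⟨t', ht', rfl⟩
      · omega
      · have := abs_le.1 (hT t' ht')
        omega)
  -- counting the pairs
  obtain ⟨G, hG⟩ : ∃ G, G = (Icc 1 D).filter (fun d => (X : ℝ) / (D : ℝ) ^ (ε / 3) ≤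
    (((Ioc u (u + X)).filter (fun n => ∀ t ∈ T', n + d * t ∈ E)).card : ℝ)) := ⟨_, rfl⟩
  rw [← hG] at hmain
  have hone : ∀ d ∈ G, (X : ℝ) / (D : ℝ) ^ (ε / 3) ≤
      ((E.filter (fun n : ℕ => ∀ t ∈ T, ∃ m ∈ A, (m : ℤ) = n + d * t)).card : ℝ) := by
    intro d hd
    rw [hG, mem_filter] at hd
    refine hd.2.trans ?_
    have h1 : ((Ioc u (u + X)).filter (fun n => ∀ t ∈ T', n + d * t ∈ E)).card ≤
        (E.filter (fun n : ℕ => ∀ t ∈ T, ∃ m ∈ A, (m : ℤ) = n + d * t)).card := by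
      refine card_le_card_of_injOn (fun n => n + d * H) ?_ ?_
      · intro n hn
        rw [mem_coe, mem_filter] at hn
        rw [mem_coe, mem_filter]
        refine ⟨hn.2 H hHT', fun t ht => ⟨_, hEA (hn.2 _ (hT't t ht)), ?_⟩⟩
        have h2 : ((t + H).toNat : ℤ) = t + H := Int.toNat_of_nonneg (by
          have := (abs_le.1 (hT t ht)).1
          linarith)
        push_cast
        rw [h2]
        ring
      · intro n _ n' _ hnn
        simpa using hnn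
    exact_mod_cast h1
  have hsum1 : (D : ℝ) ^ (1 - ε / 3) * ((X : ℝ) / (D : ℝ) ^ (ε / 3)) ≤
      ∑ d ∈ Icc 1 D, ((E.filter (fun n : ℕ => ∀ t ∈ T, ∃ m ∈ A, (m : ℤ) = n + d * t)).card : ℝ) := by
    calc (D : ℝ) ^ (1 - ε / 3) * ((X : ℝ) / (D : ℝ) ^ (ε / 3))
        ≤ G.card * ((X : ℝ) / (D : ℝ) ^ (ε / 3)) := mul_le_mul_of_nonneg_right hmain (by positivity)
      _ = ∑ _d ∈ G, (X : ℝ) / (D : ℝ) ^ (ε / 3) := by rw [sum_const, nsmul_eq_mul]
      _ ≤ ∑ d ∈ G, ((E.filter (fun n : ℕ => ∀ t ∈ T, ∃ m ∈ A, (m : ℤ) = n + d * t)).card : ℝ) :=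
          sum_le_sum hone
      _ ≤ _ := sum_le_sum_of_subset_of_nonneg (by rw [hG]; exact filter_subset _ _)
          (fun _ _ _ => Nat.cast_nonneg _)
  have hsum2 : ∑ d ∈ Icc 1 D, ((E.filter (fun n : ℕ => ∀ t ∈ T, ∃ m ∈ A,
      (m : ℤ) = n + d * t)).card : ℝ) =
      ∑ n ∈ E, (((Icc 1 D).filter (fun d : ℕ => ∀ t ∈ T, ∃ m ∈ A,
        (m : ℤ) = n + d * t)).card : ℝ) := by
    simp only [card_filter, Nat.cast_sum]
    exact sum_comm
  have hsum3 : ∑ n ∈ E, (((Icc 1 D).filter (fun d : ℕ => ∀ t ∈ T, ∃ m ∈ A,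
        (m : ℤ) = n + d * t)).card : ℝ) ≤ X * (D : ℝ) ^ (1 - ε) := by
    have h1 : ∀ n ∈ E, (((Icc 1 D).filter (fun d : ℕ => ∀ t ∈ T, ∃ m ∈ A,
        (m : ℤ) = n + d * t)).card : ℝ) ≤ (D : ℝ) ^ (1 - ε) := by
      intro n hn
      rw [hE, mem_filter] at hn
      exact hn.2.le
    refine (sum_le_sum h1).trans ?_
    rw [sum_const, nsmul_eq_mul]
    apply mul_le_mul_of_nonneg_right _ (by positivity)
    have h2 : E.card ≤ X := by
      refine (card_le_card (hEA.trans hA)).trans ?_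
      rw [Nat.card_Ioc]
      omega
    exact_mod_cast h2
  rw [hsum2] at hsum1
  have hfin := hsum1.trans hsum3
  have h1 : (D : ℝ) ^ (1 - ε / 3) * ((X : ℝ) / (D : ℝ) ^ (ε / 3)) =
      X * ((D : ℝ) ^ (1 - ε) * (D : ℝ) ^ (ε / 3)) := by
    have e1 : (D : ℝ) ^ (1 - ε / 3) = (D : ℝ) ^ (1 - ε) * (D : ℝ) ^ (ε / 3) * (D : ℝ) ^ (ε / 3) := by
      rw [← Real.rpow_add hD0, ← Real.rpow_add hD0]
      congr 1
      ring
    have e2 : (D : ℝ) ^ (ε / 3) ≠ 0 := by positivity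
    rw [e1]
    field_simp
  rw [h1] at hfin
  have h2 : 1 < (D : ℝ) ^ (ε / 3) := Real.one_lt_rpow (by linarith) (by positivity)
  have h3 : 0 < (D : ℝ) ^ (1 - ε) := by positivity
  have h4 : (D : ℝ) ^ (1 - ε) < (D : ℝ) ^ (1 - ε) * (D : ℝ) ^ (ε / 3) := by
    have := mul_lt_mul_of_pos_left h2 h3
    linarith
  have h5 : (X : ℝ) * (D : ℝ) ^ (1 - ε) < X * ((D : ℝ) ^ (1 - ε) * (D : ℝ) ^ (ε / 3)) :=
    mul_lt_mul_of_pos_left h4 (by linarith)
  linarith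

end Pool.Agent.Helper51.UL
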