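import Pool.Agent.Helper51.UL.ClsL

/-!
# Dilates of arbitrary bounded sets of shifts in dense sets of `n` with rough values of linear forms, in intervals
-/

set_option autoImplicit false

open Finset

namespace Pool.Agent.Helper51.UL

open Pool.Agent.Helper51.UD
open Pool.Agent.Y880.RS (log_ev)

/-- the sign of the dilation -/
theorem signW (k H u X Q : ℕ) (hk : 1 ≤ k) (hQ : 1 ≤ Q) (a : Fin k → ℕ) (haH : ∀ i, a i ≤ H)
    (P : Finset ℕ) (hP : P ⊆ Ioc u X) (b : Fin (2 * k + 1) → ℕ) (hb1 : ∀ i, ∃ l, b l = a i + 1)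
    (hb2 : ∀ i, ∃ l, b l = 2 * H + 2 - a i) (hb3 : ∃ l, b l = 2 * H + 3) (D : ℤ) (hD : D ≠ 0)
    (P' : Finset ℕ) (hP' : P' ⊆ P) :
    ∃ d : ℕ, 1 ≤ d ∧ (d : ℤ) = Q * |D| ∧
      (P'.filter (fun n : ℕ => ∀ l, ∃ p ∈ P', (p : ℤ) = (n : ℤ) + Q * D * b l)).card ≤
      ((Ioc u X).filter (fun n => ∀ i, n + d * a i ∈ P)).card := by
  classical
  have hQ0 : (0 : ℤ) < Q := by exact_mod_cast hQ
  have hD0 : 0 < |D| := abs_pos.2 hD
  obtain ⟨d, hd⟩ : ∃ d : ℕ, (d : ℤ) = Q * |D| :=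
    ⟨(Q * |D|).toNat, Int.toNat_of_nonneg (by positivity)⟩
  have hd1 : 1 ≤ d := by
    have : (0 : ℤ) < d := by rw [hd]; positivity
    omega
  refine ⟨d, hd1, hd, ?_⟩
  have hX : ∀ p ∈ P', u < p ∧ p ≤ X := fun p hp => mem_Ioc.1 (hP (hP' hp))
  rcases lt_or_gt_of_ne hD with hneg | hpos
  · have hd' : (Q : ℤ) * D = -d := by
      rw [hd, abs_of_neg hneg]
      ring
    refine card_le_card_of_injOn (fun n => n - d * (2 * H + 2)) ?_ ?_
    · intro n hn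
      rw [mem_coe, mem_filter] at hn
      obtain ⟨hn, hn2⟩ := hn
      obtain ⟨l, hl⟩ := hb3
      obtain ⟨p, hp, hp2⟩ := hn2 l
      rw [hd', hl] at hp2
      have h1 := hX p hp
      have h2 : d * (2 * H + 2) + d + p = n := by
        have : (p : ℤ) = n + -d * (2 * H + 3) := by rw [hp2]; push_cast; ring
        have h3 : ((d * (2 * H + 2) + d + p : ℕ) : ℤ) = n := by
          push_cast
          linarith
        exact_mod_cast h3
      obtain ⟨m, hm⟩ : ∃ m, m = n - d * (2 * H + 2) := ⟨_, rfl⟩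
      have hm' : n = m + d * (2 * H + 2) := by omega
      have hmP : ∀ i, m + d * a i ∈ P := by
        intro i
        obtain ⟨l', hl'⟩ := hb2 i
        obtain ⟨q, hq, hq2⟩ := hn2 l'
        have h4 := haH i
        obtain ⟨w, hw⟩ : ∃ w, 2 * H + 2 = w + a i := ⟨2 * H + 2 - a i, by omega⟩
        rw [hd', hl', hm', hw, Nat.add_sub_cancel] at hq2
        have h5 : q = m + d * a i := by
          have : (q : ℤ) = ((m + d * a i : ℕ) : ℤ) := by
            rw [hq2]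
            push_cast
            ring
          exact_mod_cast this
        rw [← h5]
        exact hP' hq
      simp only
      rw [← hm, mem_coe, mem_filter, mem_Ioc]
      refine ⟨⟨by omega, ?_⟩, hmP⟩
      have h6 := mem_Ioc.1 (hP (hmP ⟨0, by omega⟩))
      omega
    · intro n hn n' hn' hnn
      rw [mem_coe, mem_filter] at hn hn'
      obtain ⟨l, hl⟩ := hb3
      obtain ⟨p, hp, hp2⟩ := hn.2 l
      obtain ⟨p', hp', hp2'⟩ := hn'.2 l
      rw [hd', hl] at hp2 hp2'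
      have h2 : d * (2 * H + 2) + d + p = n := by
        have : (p : ℤ) = n + -d * (2 * H + 3) := by rw [hp2]; push_cast; ring
        have h3 : ((d * (2 * H + 2) + d + p : ℕ) : ℤ) = n := by
          push_cast
          linarith
        exact_mod_cast h3
      have h2' : d * (2 * H + 2) + d + p' = n' := by
        have : (p' : ℤ) = n' + -d * (2 * H + 3) := by rw [hp2']; push_cast; ring
        have h3 : ((d * (2 * H + 2) + d + p' : ℕ) : ℤ) = n' := by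
          push_cast
          linarith
        exact_mod_cast h3
      simp only at hnn
      omega
  · have hd' : (Q : ℤ) * D = d := by rw [hd, abs_of_pos hpos]
    refine card_le_card_of_injOn (fun n => n + d) ?_ ?_
    · intro n hn
      rw [mem_coe, mem_filter] at hn
      obtain ⟨hn, hn2⟩ := hn
      have hun := (hX n hn).1
      have hmP : ∀ i, n + d + d * a i ∈ P := by
        intro i
        obtain ⟨l', hl'⟩ := hb1 i
        obtain ⟨q, hq, hq2⟩ := hn2 l'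
        rw [hd', hl'] at hq2
        have h5 : q = n + d + d * a i := by
          have : (q : ℤ) = ((n + d + d * a i : ℕ) : ℤ) := by
            rw [hq2]
            push_cast
            ring
          exact_mod_cast this
        rw [← h5]
        exact hP' hq
      show n + d ∈ _
      rw [mem_coe, mem_filter, mem_Ioc]
      refine ⟨⟨by omega, ?_⟩, hmP⟩
      have h6 := mem_Ioc.1 (hP (hmP ⟨0, by omega⟩))
      omega
    · intro n _ n' _ hnn
      simp only at hnn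
      omega

theorem dilL0 {κ : ℕ} (α : Fin κ → ℕ) (β : Fin κ → ℤ) (h0 : ∀ i, 1 ≤ α i)
    (hnp : ∀ i j, i ≠ j → (α j : ℤ) * β i ≠ α i * β j) (C₀ k : ℕ) (hk : 1 ≤ k)
    (ε θ δ : ℝ) (hε : 0 < ε) (hε1 : ε < 1) (hθ : ε ≤ θ) (hδ : 0 < δ) :
    ∃ B X₀ : ℕ, ∀ X H u : ℕ, X₀ ≤ X → u ≤ X ^ C₀ → Real.log X ^ B ≤ H →
      (H : ℝ) ≤ (X : ℝ) ^ (1 - ε) →
      ∀ P ⊆ Ioc u (u + X), (∀ n ∈ P, ∀ i, ∀ q : ℕ, q.Prime → (q : ℤ) ∣ α i * n + β i →
        (X : ℝ) ^ θ < q) →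
      δ * (X / Real.log X ^ κ) ≤ P.card →
      ∀ a : Fin k → ℕ, Function.Injective a → (∀ i, a i ≤ H) →
        ∃ d : ℕ, 1 ≤ d ∧ (d : ℝ) ≤ (H : ℝ) ^ ε ∧ (X : ℝ) / (H : ℝ) ^ ε ≤
          (((Ioc u (u + X)).filter (fun n => ∀ i, n + d * a i ∈ P)).card : ℝ) := by
  classical
  obtain ⟨r, hr⟩ : ∃ r, r = 2 * k + 1 := ⟨_, rfl⟩
  obtain ⟨A, hA⟩ : ∃ A, A = ⌈(128 * ((2 * MM r * κ : ℕ) : ℝ) ^ 2 + 16 * C₀ + 64) / ε⌉₊ := ⟨_, rfl⟩
  have hA1 : (128 * ((2 * MM r * κ : ℕ) : ℝ) ^ 2 + 16 * C₀ + 64) / ε ≤ A := by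
    rw [hA]; exact Nat.le_ceil _
  rw [div_le_iff₀ hε] at hA1
  have hMM0 : (0 : ℝ) ≤ ((2 * MM r * κ : ℕ) : ℝ) ^ 2 := by positivity
  have hC₀r : (0 : ℝ) ≤ C₀ := Nat.cast_nonneg _
  have hA0 : (0 : ℝ) < A := by
    by_contra h
    push Not at h
    have := mul_nonpos_of_nonpos_of_nonneg h hε.le
    linarith
  obtain ⟨CV, hCV, hcls⟩ := class_exL α β h0 hnp
  obtain ⟨c, hc, B₁, s₀, har⟩ := arithL r κ (by omega) A (δ / (2 * CV * A ^ κ)) (by positivity)
  obtain ⟨CF, hCF1, hCF⟩ : ∃ CF : ℕ, 1 ≤ CF ∧ ∀ i, 1 ≤ α i ∧ α i ≤ CF ∧ |β i| ≤ CF := by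
    refine ⟨1 + ∑ i, α i + ∑ i, (β i).natAbs, by omega, fun i => ⟨h0 i, ?_, ?_⟩⟩
    · have := single_le_sum (f := α) (fun _ _ => Nat.zero_le _) (mem_univ i)
      omega
    · have h1 := single_le_sum (f := fun i => (β i).natAbs) (fun _ _ => Nat.zero_le _) (mem_univ i)
      rw [Int.abs_eq_natAbs]
      have h2 : (β i).natAbs ≤ 1 + ∑ i, α i + ∑ i, (β i).natAbs := by
        have h3 : (β i).natAbs ≤ ∑ i, (β i).natAbs := h1
        omega
      exact_mod_cast h2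
  obtain ⟨m, hm⟩ : ∃ m, m = (B₁ + 1) * (r + 1) := ⟨_, rfl⟩
  have hm1 : B₁ + 1 ≤ m := by rw [hm]; exact Nat.le_mul_of_pos_right _ (Nat.succ_pos r)
  obtain ⟨A₂, hA₂⟩ : ∃ A₂, A₂ = 2 * ((B₁ + 1) * (2 * r) + 4) := ⟨_, rfl⟩
  obtain ⟨Z₀, har⟩ := har A₂
  obtain ⟨Z₁, hZ₁⟩ := log_ev (A : ℝ)
  obtain ⟨B, hB⟩ : ∃ B, B = ⌈8 * m / ε⌉₊ := ⟨_, rfl⟩
  have hB1 : 8 * m / ε ≤ (B : ℝ) := by rw [hB]; exact Nat.le_ceil _
  -- a large prime
  obtain ⟨p₀, hp₀, hp₀p⟩ : ∃ p₀ : ℕ, 2 * CF ^ 2 < p₀ ∧ p₀.Prime := by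
    obtain ⟨p, hp1, hp2⟩ := Nat.exists_infinite_primes (2 * CF ^ 2 + 1)
    exact ⟨p, by omega, hp2⟩
  have hCFp : CF ≤ p₀ := by
    have : CF ≤ CF ^ 2 := Nat.le_self_pow (by norm_num) CF
    omega
  obtain ⟨s₁, hs₁⟩ : ∃ s₁, s₁ = |s₀| + p₀ := ⟨_, rfl⟩
  have hs₁0 : 0 ≤ s₁ := by rw [hs₁]; positivity
  obtain ⟨K, hK⟩ : ∃ K : ℝ, K = 4 + 1 / c + 7 * r + Real.exp (16 * s₁ / ε) + κ ^ 2 + 2 / δ +
      4 * CF := ⟨_, rfl⟩
  obtain ⟨X₁, hX₁⟩ := log_ev K
  obtain ⟨X₂, hX₂⟩ := ev_rpow (max (Z₀ : ℝ) Z₁) (ε / 8) (by positivity)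
  obtain ⟨X₃, hX₃⟩ := ev_rpow 2 (ε / 16) (by positivity)
  obtain ⟨X₄, hX₄⟩ := ev_log 2 (ε / 2 / (κ + 1)) (by positivity)
  refine ⟨B, max (max X₁ X₂) (max X₃ X₄), ?_⟩
  intro X H u hX huX hBH hHX P hP hPp hPc a ha haH
  have hX1 := hX₁ X (((le_max_left _ _).trans (le_max_left _ _)).trans hX)
  have hX2 := hX₂ X (((le_max_right _ _).trans (le_max_left _ _)).trans hX)
  have hX3 := hX₃ X (((le_max_left _ _).trans (le_max_right _ _)).trans hX)
  have hX4 := hX₄ X (((le_max_right _ _).trans (le_max_right _ _)).trans hX)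
  -- the logarithm
  obtain ⟨l, hl⟩ : ∃ l, l = Real.log X := ⟨_, rfl⟩
  rw [← hl] at hX1 hX4 hBH hPc
  obtain ⟨hl4, hlc, hlr, hls, hlκ, hlδ, hlCF⟩ : 4 ≤ l ∧ 1 / c ≤ l ∧ 7 * (r : ℝ) ≤ l ∧
      Real.exp (16 * s₁ / ε) ≤ l ∧ (κ : ℝ) ^ 2 ≤ l ∧ 2 / δ ≤ l ∧ 4 * (CF : ℝ) ≤ l := by
    have e1 : 0 < 1 / c := by positivity
    have e2 := Real.exp_pos (16 * s₁ / ε)
    have e3 : (0 : ℝ) ≤ 7 * r := by positivity
    have e4 : (0 : ℝ) ≤ (κ : ℝ) ^ 2 := by positivity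
    have e5 : 0 < 2 / δ := by positivity
    have e6 : (0 : ℝ) ≤ 4 * CF := by positivity
    rw [hK] at hX1
    refine ⟨?_, ?_, ?_, ?_, ?_, ?_, ?_⟩ <;> linarith
  have hXpos : 0 < X := by
    rcases Nat.eq_zero_or_pos X with h | h
    · rw [h] at hl
      simp at hl
      linarith
    · exact h
  have hx0 : (0 : ℝ) < X := by exact_mod_cast hXpos
  obtain ⟨x, hx⟩ : ∃ x : ℝ, x = X := ⟨_, rfl⟩
  obtain ⟨h, hh⟩ : ∃ h : ℝ, h = H := ⟨_, rfl⟩
  have hlx : l ≤ x := by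
    rw [hl, hx]
    have := Real.log_le_sub_one_of_pos hx0
    linarith
  have hx1 : 1 ≤ x := by linarith
  rw [← hx] at hX2 hX3 hX4 hHX hPc hPp ⊢
  rw [← hh] at hBH hHX ⊢
  -- powers of `l` and powers of `h`
  have hlh : l ^ m ≤ h ^ (ε / 8) := by
    have h1 : l ^ (8 * m / ε) ≤ h := by
      refine le_trans ?_ hBH
      rw [← Real.rpow_natCast l B]
      exact Real.rpow_le_rpow_of_exponent_le (by linarith) hB1
    calc l ^ m = (l ^ (8 * m / ε)) ^ (ε / 8) := by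
          rw [← Real.rpow_mul (by linarith), ← Real.rpow_natCast l m]
          congr 1
          field_simp
      _ ≤ h ^ (ε / 8) := Real.rpow_le_rpow (by positivity) h1 (by positivity)
  have hm0 : m ≠ 0 := by omega
  have hll : l ≤ h ^ (ε / 8) := (le_self_pow₀ (by linarith) hm0).trans hlh
  have hh1 : 1 ≤ h := by
    by_contra hcon
    push Not at hcon
    have h0 : 0 ≤ h := by rw [hh]; positivity
    have := Real.rpow_le_one h0 hcon.le (show 0 ≤ ε / 8 by positivity)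
    linarith
  have hlh' : l ≤ h := by
    refine hll.trans ?_
    calc h ^ (ε / 8) ≤ h ^ (1 : ℝ) := Real.rpow_le_rpow_of_exponent_le hh1 (by linarith)
      _ = h := Real.rpow_one h
  have hhx : h ≤ x := by
    refine hHX.trans ?_
    calc x ^ (1 - ε) ≤ x ^ (1 : ℝ) := Real.rpow_le_rpow_of_exponent_le hx1 (by linarith)
      _ = x := Real.rpow_one x
  have hh0 : 0 < h := by linarith
  have hloghl : Real.log h ≤ l := by
    rw [hl, ← hx]
    exact Real.log_le_log hh0 hhx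
  have hlogh0 : 0 ≤ Real.log h := Real.log_nonneg hh1
  have hx0' : 0 < x := by linarith
  -- the parameters
  obtain ⟨s, hs⟩ : ∃ s, s = ε / 16 * Real.log h := ⟨_, rfl⟩
  have hs1 : s₁ ≤ s := by
    have h1 : 16 * s₁ / ε ≤ Real.log h := by
      rw [Real.le_log_iff_exp_le hh0]
      exact hls.trans hlh'
    rw [div_le_iff₀ hε] at h1
    rw [hs]
    linarith
  have hs0 : s₀ ≤ s := by
    have h2 := le_abs_self s₀
    have h3 : (0 : ℝ) ≤ p₀ := Nat.cast_nonneg _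
    linarith
  have hsp : (p₀ : ℝ) ≤ s := by
    have h2 := abs_nonneg s₀
    linarith
  have hsnn : 0 ≤ s := by rw [hs]; positivity
  have hsl : s ≤ l := by
    have h1 : ε / 16 * Real.log h ≤ 1 * Real.log h :=
      mul_le_mul_of_nonneg_right (by linarith) hlogh0
    rw [hs]
    linarith
  obtain ⟨Q, hQ⟩ : ∃ Q, Q = primorial ⌊s⌋₊ := ⟨_, rfl⟩
  have hQ1 : 1 ≤ Q := by rw [hQ]; exact primorial_pos _
  have hQsq : Squarefree Q := by rw [hQ]; exact squarefree_primorial _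
  have hQs : ∀ p : ℕ, p.Prime → (p : ℝ) ≤ s → p ∣ Q := fun p hp hps => by
    rw [hQ]; exact prim_dvd s p hp hps
  have hQs' : ∀ p : ℕ, p.Prime → p ∣ Q → (p : ℝ) ≤ s := by
    intro p hp hpQ
    have h1 : p ∈ Q.primeFactors := Nat.mem_primeFactors.2 ⟨hp, hpQ, by omega⟩
    rw [hQ, primeFactors_primorial, Nat.mem_primesLE] at h1
    exact (Nat.le_floor_iff hsnn).1 h1.1
  have hCQ : 2 * CF ^ 2 < Q := hp₀.trans_le (Nat.le_of_dvd (by omega) (hQs p₀ hp₀p hsp))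
  have hCs : (CF : ℝ) ≤ s := le_trans (by exact_mod_cast hCFp) hsp
  have hQh : (Q : ℝ) ≤ h ^ (ε / 8) := by
    have h1 : (Q : ℝ) ≤ (4 : ℝ) ^ ⌊s⌋₊ := by
      rw [hQ]
      exact_mod_cast primorial_le_four_pow _
    have h2 : (4 : ℝ) ^ ⌊s⌋₊ ≤ Real.exp (2 * s) := by
      have h3 : (4 : ℝ) ≤ Real.exp 2 := by
        have := Real.quadratic_le_exp_of_nonneg (show (0 : ℝ) ≤ 2 by norm_num)
        linarith
      calc (4 : ℝ) ^ ⌊s⌋₊ ≤ (Real.exp 2) ^ ⌊s⌋₊ := pow_le_pow_left₀ (by norm_num) h3 _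
        _ = Real.exp (⌊s⌋₊ * 2) := (Real.exp_nat_mul 2 _).symm
        _ ≤ Real.exp (2 * s) := by
          apply Real.exp_le_exp.2
          have := Nat.floor_le hsnn
          linarith
    refine h1.trans (h2.trans (le_of_eq ?_))
    rw [Real.rpow_def_of_pos hh0, hs]
    congr 1
    ring
  obtain ⟨Z, hZ⟩ : ∃ Z, Z = ⌊x ^ (ε / 8)⌋₊ := ⟨_, rfl⟩
  have hZx : (Z : ℝ) ≤ x ^ (ε / 8) := by rw [hZ]; exact Nat.floor_le (by positivity)
  have hZ0 : Z₀ ≤ Z := by rw [hZ]; exact Nat.le_floor ((le_max_left _ _).trans hX2)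
  have hZ1 : Z₁ ≤ Z := by rw [hZ]; exact Nat.le_floor ((le_max_right _ _).trans hX2)
  have hlogZ := hZ₁ Z hZ1
  have hZ16 : x ^ (ε / 16) ≤ Z := by
    have h1 : x ^ (ε / 8) = x ^ (ε / 16) * x ^ (ε / 16) := by
      rw [← Real.rpow_add hx0']
      congr 1
      ring
    have h2 : x ^ (ε / 8) < Z + 1 := by rw [hZ]; exact Nat.lt_floor_add_one _
    have h3 : 2 * x ^ (ε / 16) ≤ x ^ (ε / 16) * x ^ (ε / 16) :=
      mul_le_mul_of_nonneg_right hX3 (Real.rpow_nonneg hx0'.le _)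
    linarith
  have hZpos : 0 < Z := by
    have : (0 : ℝ) < Z := lt_of_lt_of_le (by positivity) hZ16
    exact_mod_cast this
  have hZx' : (Z : ℝ) ≤ x := by
    refine hZx.trans ?_
    calc x ^ (ε / 8) ≤ x ^ (1 : ℝ) := Real.rpow_le_rpow_of_exponent_le hx1 (by linarith)
      _ = x := Real.rpow_one x
  have hlogZl : Real.log Z ≤ l := by
    rw [hl, ← hx]
    exact Real.log_le_log (by exact_mod_cast hZpos) hZx'
  have hlogZ0 : 0 < Real.log Z := by linarith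
  have hXZA0 : x ^ (C₀ + 2) ≤ (Z : ℝ) ^ A := by
    calc x ^ (C₀ + 2) = x ^ ((C₀ + 2 : ℕ) : ℝ) := (Real.rpow_natCast _ _).symm
      _ ≤ x ^ (ε / 16 * A) := by
          apply Real.rpow_le_rpow_of_exponent_le hx1
          push_cast
          linarith
      _ = (x ^ (ε / 16)) ^ A := by rw [Real.rpow_mul hx0'.le, Real.rpow_natCast]
      _ ≤ (Z : ℝ) ^ A := pow_le_pow_left₀ (by positivity) hZ16 A
  have hXZA : CF * (u + 3 * X) ≤ Z ^ A := by
    have h1 : ((CF * (u + 3 * X) : ℕ) : ℝ) ≤ x ^ (C₀ + 2) := by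
      push_cast
      rw [← hx]
      have h2 : (u : ℝ) ≤ x ^ (C₀ + 1) := by
        calc (u : ℝ) ≤ ((X ^ C₀ : ℕ) : ℝ) := by exact_mod_cast huX
          _ = x ^ C₀ := by rw [hx]; push_cast; rfl
          _ ≤ x ^ (C₀ + 1) := pow_le_pow_right₀ hx1 (Nat.le_succ _)
      have h3 : x ≤ x ^ (C₀ + 1) := le_self_pow₀ hx1 (Nat.succ_ne_zero _)
      have h4 : (CF : ℝ) * (u + 3 * x) ≤ CF * (4 * x ^ (C₀ + 1)) :=
        mul_le_mul_of_nonneg_left (by linarith) (Nat.cast_nonneg _)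
      calc (CF : ℝ) * (u + 3 * x) ≤ (4 * CF) * x ^ (C₀ + 1) := by linarith
        _ ≤ x * x ^ (C₀ + 1) := mul_le_mul_of_nonneg_right (hlCF.trans hlx) (by positivity)
        _ = x ^ (C₀ + 2) := by ring
    exact_mod_cast h1.trans hXZA0
  have hlA : l ≤ A * Real.log Z := by
    have h1 : x ≤ (Z : ℝ) ^ A := le_trans (le_self_pow₀ hx1 (by omega)) hXZA0
    calc l = Real.log x := by rw [hl, hx]
      _ ≤ Real.log ((Z : ℝ) ^ A) := Real.log_le_log hx0' h1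
      _ = A * Real.log Z := Real.log_pow _ _
  obtain ⟨N, hN⟩ : ∃ N, N = ⌈l ^ B₁⌉₊ := ⟨_, rfl⟩
  have hNlo : l ^ B₁ ≤ N := by rw [hN]; exact Nat.le_ceil _
  have hNhi : (N : ℝ) ≤ l ^ (B₁ + 1) := by
    have h1 : (N : ℝ) < l ^ B₁ + 1 := by rw [hN]; exact Nat.ceil_lt_add_one (by positivity)
    have h2 : 1 ≤ l ^ B₁ := one_le_pow₀ (by linarith)
    have h3 : l ^ B₁ * 4 ≤ l ^ B₁ * l := mul_le_mul_of_nonneg_left hl4 (by linarith)
    rw [pow_succ]
    linarith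
  have hN1 : (1 : ℝ) ≤ N := (one_le_pow₀ (by linarith)).trans hNlo
  have hNpos : 0 < N := by
    have : (0 : ℝ) < N := by linarith
    exact_mod_cast this
  have hNne : NeZero N := ⟨hNpos.ne'⟩
  have hNh : (N : ℝ) ≤ h ^ (ε / 8) :=
    hNhi.trans ((pow_le_pow_right₀ (by linarith) hm1).trans hlh)
  have hNrh : (N : ℝ) ^ (r + 1) ≤ h ^ (ε / 8) := by
    calc (N : ℝ) ^ (r + 1) ≤ (l ^ (B₁ + 1)) ^ (r + 1) := pow_le_pow_left₀ (by positivity) hNhi _
      _ = l ^ m := by rw [← pow_mul, hm]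
      _ ≤ _ := hlh
  obtain ⟨R, hR⟩ : ∃ R, R = r * ((2 * H + 3) * N) + 2 := ⟨_, rfl⟩
  have hR1 : (R : ℝ) ≤ l * (h * N) := by
    have h1 : (R : ℝ) = r * ((2 * h + 3) * N) + 2 := by rw [hR, hh]; push_cast; ring
    rw [h1]
    have h2 : (1 : ℝ) ≤ h * N := one_le_mul_of_one_le_of_one_le hh1 hN1
    have h3 : (1 : ℝ) ≤ r := by
      have : 1 ≤ r := by omega
      exact_mod_cast this
    have h4 : (2 * h + 3) * N ≤ 5 * (h * N) := by
      have h5 : (2 * h + 3) * N ≤ (5 * h) * N :=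
        mul_le_mul_of_nonneg_right (by linarith) (by linarith)
      linarith
    calc (r : ℝ) * ((2 * h + 3) * N) + 2 ≤ r * (5 * (h * N)) + 2 * (r * (h * N)) := by
          have h5 : (r : ℝ) * ((2 * h + 3) * N) ≤ r * (5 * (h * N)) :=
            mul_le_mul_of_nonneg_left h4 (by positivity)
          have h6 : 1 ≤ (r : ℝ) * (h * N) := one_le_mul_of_one_le_of_one_le h3 h2
          linarith
      _ = 7 * r * (h * N) := by ring
      _ ≤ l * (h * N) := mul_le_mul_of_nonneg_right hlr (by positivity)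
  have hRpos : (0 : ℝ) < R := by rw [hR]; positivity
  have hQRh : (Q : ℝ) * R ≤ h ^ (1 + 3 * ε / 8) := by
    have h1 : (Q : ℝ) * R ≤ h ^ (ε / 8) * (h ^ (ε / 8) * (h * h ^ (ε / 8))) := by
      refine mul_le_mul hQh (hR1.trans ?_) hRpos.le (by positivity)
      exact mul_le_mul hll (mul_le_mul_of_nonneg_left hNh hh0.le) (by positivity) (by positivity)
    have h2 : h ^ (ε / 8) * (h ^ (ε / 8) * (h * h ^ (ε / 8))) = h ^ (1 + 3 * ε / 8) := by
      conv_lhs => rw [← Real.rpow_one h]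
      simp only [← Real.rpow_mul hh0.le, one_mul]
      rw [← Real.rpow_add hh0, ← Real.rpow_add hh0, ← Real.rpow_add hh0]
      congr 1
      ring
    rw [h2] at h1
    exact h1
  have hQR : (Q : ℝ) * R ≤ x ^ (1 - ε / 2) := by
    refine hQRh.trans ?_
    calc h ^ (1 + 3 * ε / 8) ≤ (x ^ (1 - ε)) ^ (1 + 3 * ε / 8) :=
          Real.rpow_le_rpow hh0.le hHX (by positivity)
      _ = x ^ ((1 - ε) * (1 + 3 * ε / 8)) := by rw [← Real.rpow_mul hx0'.le]
      _ ≤ x ^ (1 - ε / 2) := by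
          apply Real.rpow_le_rpow_of_exponent_le hx1
          have h3 : 0 ≤ ε * ε := mul_self_nonneg ε
          linarith
  have hQRpos : (0 : ℝ) < ((Q * R : ℕ) : ℝ) := by
    push_cast
    have : (0 : ℝ) < Q := by exact_mod_cast hQ1
    positivity
  have hlogQR : Real.log ((Q * R : ℕ) : ℝ) ≤ 4 * Real.log h := by
    calc Real.log ((Q * R : ℕ) : ℝ) ≤ Real.log (h ^ (1 + 3 * ε / 8)) :=
          Real.log_le_log hQRpos (by push_cast; exact hQRh)
      _ = (1 + 3 * ε / 8) * Real.log h := Real.log_rpow hh0 _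
      _ ≤ 4 * Real.log h := mul_le_mul_of_nonneg_right (by linarith) hlogh0
  have hlogQR0 : 0 ≤ Real.log ((Q * R : ℕ) : ℝ) := Real.log_natCast_nonneg _
  have hlogQR2 : Real.log (((Q * R) ^ 2 : ℕ) : ℝ) = 2 * Real.log ((Q * R : ℕ) : ℝ) := by
    rw [Nat.cast_pow, Real.log_pow]
    norm_num
  obtain ⟨b, hb, hbH, hb1, hb2, hb3⟩ := pts k H a ha haH
  subst hr
  have hrn : ∀ z : Fin (2 * k + 1) → ZMod N, rn b z + 2 ≤ R := by
    intro z
    rw [hR]
    apply Nat.add_le_add_right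
    unfold rn
    calc ∑ l, b l * (z l).val ≤ ∑ _l : Fin (2 * k + 1), (2 * H + 3) * N :=
          sum_le_sum fun l _ => Nat.mul_le_mul (hbH l) (ZMod.val_lt _).le
      _ = (2 * k + 1) * ((2 * H + 3) * N) := by
          rw [sum_const, card_univ, Fintype.card_fin, smul_eq_mul]
  -- the set
  obtain ⟨P₁, hP₁⟩ : ∃ P₁ : Finset ℕ, P₁ = P.filter (fun p : ℕ => u + x ^ (1 - ε / 2) < (p : ℝ)) :=
    ⟨_, rfl⟩
  have hl0 : 0 < l := by linarith
  have hlκ0 : 0 < l ^ κ := by positivity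
  have hP₁c : δ / 2 * (x / l ^ κ) ≤ P₁.card := by
    have h1 : P.card ≤ P₁.card + ⌊x ^ (1 - ε / 2)⌋₊ := by
      have h2 : P ⊆ P₁ ∪ Ioc u (u + ⌊x ^ (1 - ε / 2)⌋₊) := by
        intro p hp
        rw [mem_union, hP₁, mem_filter, mem_Ioc]
        by_cases h3 : u + x ^ (1 - ε / 2) < (p : ℝ)
        · exact Or.inl ⟨hp, h3⟩
        · push Not at h3
          have h5 := (mem_Ioc.1 (hP hp)).1
          refine Or.inr ⟨h5, ?_⟩
          have h4 : p - u ≤ ⌊x ^ (1 - ε / 2)⌋₊ := by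
            apply Nat.le_floor
            rw [Nat.cast_sub h5.le]
            linarith
          omega
      refine (card_le_card h2).trans ((card_union_le _ _).trans ?_)
      rw [Nat.card_Ioc]
      omega
    have h2 : (P.card : ℝ) ≤ P₁.card + x ^ (1 - ε / 2) := by
      have h3 : (P.card : ℝ) ≤ P₁.card + ⌊x ^ (1 - ε / 2)⌋₊ := by exact_mod_cast h1
      have h4 := Nat.floor_le (show 0 ≤ x ^ (1 - ε / 2) by positivity)
      linarith
    have h3 : x ^ (1 - ε / 2) ≤ δ / 2 * (x / l ^ κ) := by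
      have h4 : x ^ (1 - ε / 2) * x ^ (ε / 2) = x := by
        rw [← Real.rpow_add hx0']
        have : 1 - ε / 2 + ε / 2 = 1 := by ring
        rw [this, Real.rpow_one]
      have h6 : 2 / δ * l ^ κ ≤ x ^ (ε / 2) := by
        calc 2 / δ * l ^ κ ≤ l * l ^ κ := mul_le_mul_of_nonneg_right hlδ hlκ0.le
          _ = l ^ (κ + 1) := (pow_succ' l κ).symm
          _ ≤ (x ^ (ε / 2 / (κ + 1))) ^ (κ + 1) := by
              apply pow_le_pow_left₀ hl0.le
              linarith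
          _ = x ^ (ε / 2) := by
              rw [← Real.rpow_natCast (x ^ (ε / 2 / (κ + 1))) (κ + 1), ← Real.rpow_mul hx0'.le]
              congr 1
              push_cast
              field_simp
      have h5 : x ^ (1 - ε / 2) * (2 / δ * l ^ κ) ≤ x := by
        calc _ ≤ x ^ (1 - ε / 2) * x ^ (ε / 2) := mul_le_mul_of_nonneg_left h6 (by positivity)
          _ = x := h4
      rw [← mul_div_assoc, le_div_iff₀ hlκ0]
      calc x ^ (1 - ε / 2) * l ^ κ = δ / 2 * (x ^ (1 - ε / 2) * (2 / δ * l ^ κ)) := by field_simp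
        _ ≤ δ / 2 * x := mul_le_mul_of_nonneg_left h5 (by positivity)
    have h4 : δ * (x / l ^ κ) = δ / 2 * (x / l ^ κ) + δ / 2 * (x / l ^ κ) := by ring
    linarith
  have hlxθ : l < x ^ θ := by
    have h1 : x ^ (ε / 2 / (κ + 1)) ≤ x ^ θ := by
      apply Real.rpow_le_rpow_of_exponent_le hx1
      have h2 : ε / 2 / ((κ : ℝ) + 1) ≤ ε / 2 / 1 := by
        apply div_le_div_of_nonneg_left (by positivity) one_pos
        have : (0 : ℝ) ≤ κ := Nat.cast_nonneg _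
        linarith
      linarith
    linarith
  have hZxθ : (Z : ℝ) ≤ x ^ θ :=
    hZx.trans (Real.rpow_le_rpow_of_exponent_le hx1 (by linarith))
  have hP₁p : ∀ n ∈ P₁, n ∈ P ∧ u + Q * R < n := by
    intro p hp
    rw [hP₁, mem_filter] at hp
    refine ⟨hp.1, ?_⟩
    have h1 : ((u + Q * R : ℕ) : ℝ) < p := by
      push_cast
      linarith [hp.2]
    exact_mod_cast h1
  obtain ⟨a₀, ha₀⟩ := hcls P₁ Q hQsq (by
    intro n hn i p hp hpQ hpn
    have h1 := hPp n (hP₁p n hn).1 i p hp hpn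
    have h2 := hQs' p hp hpQ
    linarith)
  obtain ⟨P', hP'⟩ : ∃ P', P' = P₁.filter (fun p => p % Q = a₀ % Q) := ⟨_, rfl⟩
  rw [← hP'] at ha₀
  have hP'P : P' ⊆ P := by
    intro p hp
    rw [hP', mem_filter] at hp
    exact (hP₁p p hp.1).1
  have hφ0 : (0 : ℝ) < Q.totient := by exact_mod_cast Nat.totient_pos.2 hQ1
  have hQ0 : (0 : ℝ) < Q := by exact_mod_cast hQ1
  have hQRX : Q * R ≤ X := by
    have h1 : ((Q * R : ℕ) : ℝ) ≤ x := by
      push_cast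
      refine hQR.trans ?_
      calc x ^ (1 - ε / 2) ≤ x ^ (1 : ℝ) :=
            Real.rpow_le_rpow_of_exponent_le hx1 (by linarith)
        _ = x := Real.rpow_one x
    rw [hx] at h1
    exact_mod_cast h1
  have hZQX : Z * Q ≤ X := by
    have h1 : ((Z * Q : ℕ) : ℝ) ≤ x := by
      push_cast
      calc (Z : ℝ) * Q ≤ x ^ (ε / 8) * x ^ (ε / 8) := by
            refine mul_le_mul hZx (hQh.trans ?_) hQ0.le (by positivity)
            exact Real.rpow_le_rpow hh0.le hhx (by positivity)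
        _ = x ^ (ε / 8 + ε / 8) := (Real.rpow_add hx0' _ _).symm
        _ ≤ x ^ (1 : ℝ) := Real.rpow_le_rpow_of_exponent_le hx1 (by linarith)
        _ = x := Real.rpow_one x
    rw [hx] at h1
    exact_mod_cast h1
  have hcond1 : ((N : ℝ) ^ (2 * k + 1) * κ) ^ 2 * Real.log (((Q * R) ^ 2 : ℕ) : ℝ) ≤
      Real.log Z ^ A₂ := by
    rw [hlogQR2]
    calc ((N : ℝ) ^ (2 * k + 1) * κ) ^ 2 * (2 * Real.log ((Q * R : ℕ) : ℝ))
        = (N : ℝ) ^ (2 * (2 * k + 1)) * ((κ : ℝ) ^ 2 * (2 * Real.log ((Q * R : ℕ) : ℝ))) := by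
          rw [mul_pow, ← pow_mul]
          ring
      _ ≤ (l ^ (B₁ + 1)) ^ (2 * (2 * k + 1)) * (l * (l * (l * l))) := by
          refine mul_le_mul (pow_le_pow_left₀ (by positivity) hNhi _) ?_
            (mul_nonneg (by positivity) (mul_nonneg (by norm_num) hlogQR0)) (by positivity)
          refine mul_le_mul hlκ ?_ (mul_nonneg (by norm_num) hlogQR0) hl0.le
          refine mul_le_mul (by linarith) (hlogQR.trans ?_) hlogQR0 hl0.le
          exact mul_le_mul hl4 hloghl hlogh0 hl0.le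
      _ = l ^ ((B₁ + 1) * (2 * (2 * k + 1)) + 4) := by rw [← pow_mul, pow_add]; ring
      _ ≤ (Real.log Z * Real.log Z) ^ ((B₁ + 1) * (2 * (2 * k + 1)) + 4) := by
          refine pow_le_pow_left₀ hl0.le (hlA.trans ?_) _
          exact mul_le_mul_of_nonneg_right hlogZ hlogZ0.le
      _ = Real.log Z ^ A₂ := by rw [hA₂, ← pow_two, ← pow_mul]
  have hcond2 : ((2 * MM (2 * k + 1) * κ : ℕ) : ℝ) ^ 2 *
      Real.log (((Q * R) ^ 2 : ℕ) : ℝ) ≤ A * s := by
    rw [hlogQR2]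
    calc ((2 * MM (2 * k + 1) * κ : ℕ) : ℝ) ^ 2 * (2 * Real.log ((Q * R : ℕ) : ℝ))
        ≤ ((2 * MM (2 * k + 1) * κ : ℕ) : ℝ) ^ 2 * (2 * (4 * Real.log h)) :=
          mul_le_mul_of_nonneg_left (by linarith) hMM0
      _ = (128 * ((2 * MM (2 * k + 1) * κ : ℕ) : ℝ) ^ 2) / 16 * Real.log h := by ring
      _ ≤ (A * ε) / 16 * Real.log h := by
          apply mul_le_mul_of_nonneg_right _ hlogh0
          linarith
      _ = A * s := by rw [hs]; ring
  have hcond3 : δ / (2 * CV * A ^ κ) * ((X / Q : ℝ) *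
      ((Q : ℝ) / (Q.totient * Real.log Z)) ^ κ) ≤ P'.card := by
    refine le_trans ?_ ha₀
    rw [← hx]
    have h1 : δ / (2 * CV * A ^ κ) * ((x / Q : ℝ) *
        ((Q : ℝ) / (Q.totient * Real.log Z)) ^ κ) =
        δ / 2 * (x / (A * Real.log Z) ^ κ) / (CV * (Q * ((Q.totient : ℝ) / Q) ^ κ)) := by
      rw [div_pow, div_pow, mul_pow, mul_pow]
      field_simp
    rw [h1]
    apply div_le_div_of_nonneg_right _ (by positivity)
    refine le_trans ?_ hP₁c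
    apply mul_le_mul_of_nonneg_left _ (by positivity)
    apply div_le_div_of_nonneg_left hx0'.le hlκ0
    exact pow_le_pow_left₀ hl0.le hlA κ
  have hQZA : Q ≤ Z ^ A := by
    have h1 : (Q : ℝ) ≤ (Z : ℝ) ^ A := by
      refine le_trans ?_ hXZA0
      refine le_trans ?_ (le_self_pow₀ hx1 (by omega))
      refine hQh.trans ((Real.rpow_le_rpow hh0.le hhx (by positivity)).trans ?_)
      calc x ^ (ε / 8) ≤ x ^ (1 : ℝ) := Real.rpow_le_rpow_of_exponent_le hx1 (by linarith)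
        _ = x := Real.rpow_one x
    exact_mod_cast h1
  obtain ⟨D, hD, hDN, hcount⟩ := har Z Q N X R u CF s hZ0 hQ1 hs0 hQs
    ((pow_le_pow_left₀ hlogZ0.le hlogZl B₁).trans hNlo) hcond1 hcond2
    hZQX hQZA hXZA hQRX hCs hCQ hCF1 b hb hrn α β hCF hnp a₀ P'
    (by
      intro p hp
      rw [hP', mem_filter] at hp
      obtain ⟨h1, h3⟩ := hP₁p p hp.1
      refine ⟨(mem_Ioc.1 (hP h1)).2, h3, hp.2, fun i q hq hqp => ?_⟩
      have h4 := hPp p h1 i q hq hqp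
      have h5 : (Z : ℝ) < q := hZxθ.trans_lt h4
      exact_mod_cast h5)
    hcond3
  obtain ⟨d, hd1, hd2, hd3⟩ := signW k H u (u + X) Q hk hQ1 a haH P hP b hb1 hb2 hb3 D hD P' hP'P
  refine ⟨d, hd1, ?_, ?_⟩
  · have h1 : (d : ℝ) ≤ Q * N := by
      have h2 : (d : ℤ) ≤ Q * N := by
        rw [hd2]
        exact mul_le_mul_of_nonneg_left hDN.le (by positivity)
      have h3 : d ≤ Q * N := by exact_mod_cast h2
      exact_mod_cast h3
    calc (d : ℝ) ≤ Q * N := h1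
      _ ≤ h ^ (ε / 8) * h ^ (ε / 8) := mul_le_mul hQh hNh (by positivity) (by positivity)
      _ = h ^ (ε / 8 + ε / 8) := (Real.rpow_add hh0 _ _).symm
      _ ≤ h ^ ε := Real.rpow_le_rpow_of_exponent_le hh1 (by linarith)
  · refine le_trans ?_ (by exact_mod_cast hd3 :
      ((P'.filter (fun n : ℕ => ∀ l, ∃ p ∈ P', (p : ℤ) = (n : ℤ) + Q * D * b l)).card : ℝ) ≤ _)
    refine le_trans ?_ hcount
    rw [← hx, div_div, ← mul_div_assoc, div_le_div_iff₀ (by positivity) (by positivity)]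
    have h1 : (Q : ℝ) * (N : ℝ) ^ (2 * k + 1 + 1) ≤ h ^ (ε / 8) * h ^ (ε / 8) :=
      mul_le_mul hQh hNrh (by positivity) (by positivity)
    have h2 : 1 ≤ c * h ^ (ε / 8) := by
      have h3 : 1 / c ≤ h ^ (ε / 8) := hlc.trans hll
      rw [div_le_iff₀ hc] at h3
      linarith
    have h3 : (Q : ℝ) * (N : ℝ) ^ (2 * k + 1 + 1) ≤ c * h ^ ε := by
      calc (Q : ℝ) * (N : ℝ) ^ (2 * k + 1 + 1) ≤ h ^ (ε / 8) * h ^ (ε / 8) := h1
        _ ≤ (c * h ^ (ε / 8)) * (h ^ (ε / 8) * h ^ (ε / 8)) :=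
            le_mul_of_one_le_left (by positivity) h2
        _ = c * (h ^ (ε / 8) * h ^ (ε / 8) * h ^ (ε / 8)) := by ring
        _ = c * h ^ (ε / 8 + ε / 8 + ε / 8) := by
            rw [Real.rpow_add hh0, Real.rpow_add hh0]
        _ ≤ c * h ^ ε := by
            apply mul_le_mul_of_nonneg_left _ hc.le
            exact Real.rpow_le_rpow_of_exponent_le hh1 (by linarith)
    calc x * ((Q : ℝ) * (N : ℝ) ^ (2 * k + 1 + 1)) ≤ x * (c * h ^ ε) :=
          mul_le_mul_of_nonneg_left h3 hx0'.le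
      _ = c * x * h ^ ε := by ring

end Pool.Agent.Helper51.UL
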